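import Pool.Agent.H35.DV.Stmts

/-!
Module ADR: adding a row.
-/

set_option linter.unusedVariables false
set_option synthInstance.maxSize 100000

namespace SW.DV

theorem dv_adr (hcv : CVXStmt) (hcbt : CBTStmt) (hwf : WFStmt) (hzvx : ZVXStmt)
    (htmo : TMOStmt) : ADRStmt := by
  intro M _ _ w Z I a p f c S hb hI hp hf hc hS hSs hrows hcols
  have cv := hcv M w Z I hb hI
  have cb := hcbt M
  have wf := hwf M w hb.w1
  have zv := hzvx M w Z hb
  obtain ⟨q, hq⟩ : ∃ q, q = ins (opair emp (opair a (opair f (opair c S)))) p := ⟨_, rfl⟩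
  rw [← hq]
  have haw := (cv.ht hp).1
  have hao := (cv.ht hp).2
  have hE : ∀ K b x, Et q K b x ↔ Et p K b x ∨ (K = emp ∧ b = a ∧ x = opair f (opair c S)) := by
    intro K b x
    rw [hq]
    unfold Et
    rw [mem_ins, opair_inj, opair_inj]
  have hEK : ∀ K n z, E K I → (Et q K n z ↔ Et p K n z) := by
    intro K n z hK
    rw [hE]
    refine ⟨fun h => h.elim id fun h => ?_, Or.inl⟩
    rw [h.1] at hK
    exact absurd hK hI
  have hcol : ∀ K n, E K I → col q K n = col p K n := by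
    intro K n hK
    refine SW.ext fun z => ?_
    rw [mem_col, mem_col, hEK K n z hK]
  have hsub : Sub p q := fun z hz => by rw [hq]; exact mem_ins.2 (Or.inl hz)
  have hRw : ∀ b f' c' S', Rw q b f' c' S' → Rw p b f' c' S' ∨ (b = a ∧ f' = f ∧ c' = c ∧
      S' = S) := by
    intro b f' c' S' h
    rcases (hE _ _ _).1 h with h | ⟨_, h1, h2⟩
    · exact Or.inl h
    · rw [opair_inj, opair_inj] at h2
      exact Or.inr ⟨h1, h2.1, h2.2.1, h2.2.2⟩
  refine ⟨Or.inl (wf.suc haw), ⟨?_, fun z hz => ?_⟩, ⟨fun b x hx => ?_, fun b x x' hx hx' => ?_,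
      fun b hb' => ?_, fun b b' f1 c1 S1 f' c' S' hbb h1 h2 => ?_⟩, fun K hK => ⟨fun n z hz => ?_,
      fun n hn => ?_, fun b f' c' S' hr => ?_⟩⟩
  · rw [hq]
    refine cb.bun hp.2.1.1 (cb.fin ?_)
    have : sing (opair emp (opair a (opair f (opair c S)))) =
        ins (opair emp (opair a (opair f (opair c S)))) emp := SW.ext fun z => by
      rw [mem_sing, mem_ins]
      exact ⟨Or.inr, fun h => h.elim (fun h => absurd h (not_mem_emp _)) id⟩
    rw [this]; exact finF.ins finF.emp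
  · rw [hq, mem_ins] at hz
    rcases hz with hz | rfl
    · exact hp.2.1.2 z hz
    · exact ⟨emp, a, _, Or.inl rfl, haw, zv.row hf.1 hc hS hSs, rfl⟩
  · rcases (hE _ _ _).1 hx with h | ⟨_, rfl, rfl⟩
    · obtain ⟨h1, h2⟩ := hp.2.2.1.1 b x h
      exact ⟨mem_suc.2 (Or.inl h1), h2⟩
    · exact ⟨mem_suc.2 (Or.inr rfl), f, c, S, rfl, hf, hc, hS, hSs⟩
  · rcases (hE _ _ _).1 hx with h | ⟨_, rfl, rfl⟩
    · rcases (hE _ _ _).1 hx' with h' | ⟨_, rfl, rfl⟩
      · exact hp.2.2.1.2.1 b x x' h h'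
      · exact absurd (cv.rowb hp h) (not_mem_self _)
    · rcases (hE _ _ _).1 hx' with h' | ⟨_, _, rfl⟩
      · exact absurd (cv.rowb hp h') (not_mem_self _)
      · rfl
  · rcases mem_suc.1 hb' with hb' | rfl
    · obtain ⟨x, hx⟩ := hp.2.2.1.2.2.1 b hb'
      exact ⟨x, hsub _ hx⟩
    · exact ⟨_, (hE _ _ _).2 (Or.inr ⟨rfl, rfl, rfl⟩)⟩
  · rcases hRw _ _ _ _ h1 with h1 | ⟨rfl, rfl, rfl, rfl⟩
    · rcases hRw _ _ _ _ h2 with h2 | ⟨rfl, rfl, rfl, rfl⟩
      · exact hp.2.2.1.2.2.2 b b' f1 c1 S1 f' c' S' hbb h1 h2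
      · exact absurd (cv.rowb hp h1) fun h => not_mem_cycle h hbb
    · rcases hRw _ _ _ _ h2 with h2 | ⟨rfl, rfl, rfl, rfl⟩
      · exact hrows _ _ _ _ h2
      · exact absurd hbb (not_mem_self _)
  · rw [hEK K n z hK] at hz
    exact (hp.2.2.2 K hK).1 n z hz
  · rw [hcol K n hK]
    exact (hp.2.2.2 K hK).2.1 n hn
  · rcases hRw _ _ _ _ hr with hr | ⟨rfl, rfl, rfl, rfl⟩
    · rcases (hp.2.2.2 K hK).2.2 b f' c' S' hr with hT | hG
      · refine Or.inl (htmo M w Z I a p q K b hb hI hp hK hsub (fun n j hn hj => ?_) hT)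
        rw [hcol K n hK]
        exact ((hp.2.2.2 K hK).2.1 n hn).2.1 j hj
      · refine Or.inr fun n hn => ?_
        rw [hcol K n hK]
        exact hG n hn
    · refine Or.inr fun n hn => ?_
      rw [hcol K n hK]
      exact hcols K n hK hn

end SW.DV
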