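import Pool.Agent.H35.DV.Stmts

/-!
Module AMA: amalgamation.
-/

set_option linter.unusedVariables false
set_option synthInstance.maxSize 100000

namespace SW.DV

theorem dv_ama (hcv : CVXStmt) (hclx : CLXStmt) (hrst : RSTStmt) (htmo : TMOStmt)
    (hcbt : CBTStmt) : AMAStmt := by
  intro M _ _ w Z I J a p q hb hI hJI hJ hp hclo hq hpq
  have hJe : ¬ E emp J := fun h => hI (hJI _ h)
  have cv := hcv M w Z I hb hI
  have cvJ := hcv M w Z J hb hJe
  have cb := hcbt M
  have cl := hclx M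
  obtain ⟨c, hc⟩ := mem_PQ.1 hq
  obtain ⟨hrj, hrjr⟩ := hrst M w Z I J a p hb hI hJI hJ hp
  have hac : Sub a c := cvJ.hmono hrj hc hpq
  -- entries
  have hrow : ∀ b x, Et p emp b x → Et q emp b x := fun b x h => hpq _ ((hrjr b x).2 h)
  have hpJ : ∀ K b x, E K J → Et p K b x → Et q K b x := by
    intro K b x hK h
    refine hpq _ ?_
    obtain ⟨K', b', x', _, hb', hx', h1⟩ := hp.2.1.2 _ h
    simp only [opair_inj] at h1
    obtain ⟨rfl, rfl, rfl⟩ := h1
    unfold rj
    rw [mem_inter, mem_prod, mem_prod, mem_ins]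
    exact ⟨h, Or.inl hK, hb', hx'⟩
  have hqc : ∀ K b x, Et q K b x → K = emp ∨ E K J := by
    intro K b x h
    obtain ⟨K', b', x', hK, _, _, h1⟩ := hc.2.1.2 _ h
    simp only [opair_inj] at h1
    obtain ⟨rfl, rfl, rfl⟩ := h1
    exact hK
  have hU : ∀ K b x, Et (bun p q) K b x ↔ Et p K b x ∨ Et q K b x := fun K b x => mem_bun
  have hUe : ∀ b x, Et (bun p q) emp b x ↔ Et q emp b x := by
    intro b x
    rw [hU]
    exact ⟨fun h => h.elim (hrow b x) id, Or.inr⟩
  have hUJ : ∀ K b x, E K J → (Et (bun p q) K b x ↔ Et q K b x) := by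
    intro K b x hK
    rw [hU]
    exact ⟨fun h => h.elim (hpJ K b x hK) id, Or.inr⟩
  have hUI : ∀ K b x, E K I → ¬ E K J → (Et (bun p q) K b x ↔ Et p K b x) := by
    intro K b x hK hKJ
    rw [hU]
    refine ⟨fun h => h.elim id fun h => ?_, Or.inl⟩
    rcases hqc K b x h with h1 | h1
    · rw [h1] at hK
      exact absurd hK hI
    · exact absurd h1 hKJ
  have hcJ : ∀ K n, E K J → col (bun p q) K n = col q K n := by
    intro K n hK
    refine SW.ext fun z => ?_
    rw [mem_col, mem_col, hUJ K n z hK]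
  have hcI : ∀ K n, E K I → ¬ E K J → col (bun p q) K n = col p K n := by
    intro K n hK hKJ
    refine SW.ext fun z => ?_
    rw [mem_col, mem_col, hUI K n z hK hKJ]
  have hsp : Sub p (bun p q) := fun z hz => mem_bun.2 (Or.inl hz)
  have hsq : Sub q (bun p q) := fun z hz => mem_bun.2 (Or.inr hz)
  have hCL : ∀ K, E K I → ∀ n, E n om → CL (col (bun p q) K n) := by
    intro K hK n hn
    by_cases hKJ : E K J
    · rw [hcJ K n hKJ]
      exact (hc.2.2.2 K hKJ).2.1 n hn
    · rw [hcI K n hK hKJ]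
      exact (hp.2.2.2 K hK).2.1 n hn
  refine mem_PQ.2 ⟨c, hc.1, ⟨?_, fun z hz => ?_⟩, ⟨fun b x hx => ?_, fun b x x' hx hx' => ?_,
      fun b hb' => ?_, fun b b' f c S f' c' S' hbb h1 h2 => ?_⟩, fun K hK => ⟨fun n z hz => ?_,
      hCL K hK, fun b f d S hr => ?_⟩⟩
  · exact cb.bun hp.2.1.1 hc.2.1.1
  · rcases mem_bun.1 hz with hz | hz
    · exact hp.2.1.2 z hz
    · obtain ⟨K, b, x, hK, h1⟩ := hc.2.1.2 z hz
      exact ⟨K, b, x, hK.elim Or.inl (fun h => Or.inr (hJI _ h)), h1⟩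
  · rw [hUe] at hx
    exact hc.2.2.1.1 b x hx
  · rw [hUe] at hx hx'
    exact hc.2.2.1.2.1 b x x' hx hx'
  · obtain ⟨x, hx⟩ := hc.2.2.1.2.2.1 b hb'
    exact ⟨x, hsq _ hx⟩
  · exact hc.2.2.1.2.2.2 b b' f c S f' c' S' hbb ((hUe _ _).1 h1) ((hUe _ _).1 h2)
  · by_cases hKJ : E K J
    · rw [hUJ K n z hKJ] at hz
      exact (hc.2.2.2 K hKJ).1 n z hz
    · rw [hUI K n z hK hKJ] at hz
      exact (hp.2.2.2 K hK).1 n z hz
  · have hrq : Rw q b f d S := (hUe _ _).1 hr
    by_cases hKJ : E K J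
    · rcases (hc.2.2.2 K hKJ).2.2 b f d S hrq with hT | hG
      · exact Or.inl (htmo M w Z J c q (bun p q) K b hb hJe hc hKJ hsq
          (fun n j hn hj => (hCL K hK n hn).2.1 j hj) hT)
      · refine Or.inr fun n hn => ?_
        rw [hcJ K n hKJ]
        exact hG n hn
    · by_cases hba : E b a
      · obtain ⟨f', c', S', hr', _⟩ := cv.row hp hba
        obtain ⟨h1, h2, h3⟩ := cvJ.rowu hc (hrow _ _ hr') hrq
        rw [h1, h2, h3] at hr'
        rcases (hp.2.2.2 K hK).2.2 b f d S hr' with hT | hG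
        · exact Or.inl (htmo M w Z I a p (bun p q) K b hb hI hp hK hsp
            (fun n j hn hj => (hCL K hK n hn).2.1 j hj) hT)
        · refine Or.inr fun n hn => ?_
          rw [hcI K n hK hKJ]
          exact hG n hn
      · refine Or.inr fun n hn => ?_
        rw [hcI K n hK hKJ]
        rcases hclo K n hK hn with h1 | ⟨b', f', c', S', h1, h2⟩
        · rw [h1]
          exact cl.gemp
        · have hb'a : E b' a := cv.rowb hp h1
          have hbc : E b c := cvJ.rowb hc hrq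
          have hbo : Ord b := (cvJ.ht hc).2.mem hbc
          have hab : Sub a b := (hbo.not_mem_iff (cv.ht hp).2).1 hba
          exact (hc.2.2.1.2.2.2 b b' f d S f' c' S' (hab b' hb'a) hrq (hrow _ _ h1)).2 _ h2

end SW.DV
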