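import Pool.Agent.H83.DV.MDF

/-!
Module BCK: going back to the old entries.
-/

set_option linter.unusedVariables false
set_option synthInstance.maxSize 100000

namespace SW.DV

section
variable {M : Type} [SetStr M] [ZF M]

theorem bck_mem_At {e p z : M} : E z (At e p) ↔ E z p ∧ ∃ K n j v,
    z = opair K (opair n (opair j v)) ∧ E (opair K (opair n j)) e := by
  unfold At; rw [mem_sep' inferInstance]

theorem bck_mem_md {p e s z : M} : E z (md p e s) ↔ (E z p ∧ ¬ E z (At e p)) ∨ E z s := by
  unfold md; rw [mem_bun, mem_diff]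

end

theorem dv_bck (hcv : CVXStmt) (hmdx : MDXStmt) (hmdf : MDFStmt) : BCKStmt := by
  intro M _ _ w Z I a b p q e hb hI hp hq he hpq
  have cv := hcv M w Z I hb hI
  have md' := hmdx M w Z I hb hI
  have hlc : Lc e (At e p) := md'.at' hp he
  refine ⟨hmdf M w Z I b q e _ hb hI hq he hlc, fun z hz => ?_, fun K n j v hx => ?_,
    (md'.ls hq he hlc.1).1, fun s hs hsq => ?_⟩
  · rw [bck_mem_md]
    by_cases h : E z (At e p)
    · exact Or.inr h
    · refine Or.inl ⟨hpq z (mem_diff.2 ⟨hz, h⟩), fun h' => h ?_⟩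
      rw [bck_mem_At] at h' ⊢
      exact ⟨hz, h'.2⟩
  · rw [md'.inn he hlc.1 hx]
    unfold Ex Et
    rw [bck_mem_At]
    exact ⟨fun h => h.1, fun h => ⟨h, K, n, j, v, rfl, hx⟩⟩
  · refine SW.ext fun z => ?_
    rw [bck_mem_md]
    constructor
    · rintro (⟨h1, h2⟩ | h)
      · have h1' := h1
        rw [bck_mem_md] at h1'
        rcases h1' with h3 | h3
        · exact h3.1
        · exfalso
          refine h2 (bck_mem_At.2 ⟨h1, ?_⟩)
          exact (bck_mem_At.1 h3).2
      · exact hsq z h
    · intro hz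
      by_cases h : E z (At e q)
      · right
        obtain ⟨_, K, n, j, v, rfl, hx⟩ := bck_mem_At.1 h
        obtain ⟨K', n', j', hK, hn, hj, h1⟩ := he.2 _ hx
        simp only [opair_inj] at h1
        obtain ⟨rfl, rfl, rfl⟩ := h1
        obtain ⟨u, hu, hu1, hu2⟩ := hs.2 K n j hx
        obtain ⟨u', hu', hu1'⟩ := (((hq.2.2.2 K hK).2.1 n hn).2.1 j hj).1
        rw [cv.colx hq hK] at hu1'
        have h2 : u' = u := by
          by_contra hne
          exact hu1' (hsq _ (hu2 u' hu' hne))
        rw [h2] at hu1'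
        have h3 : v ≠ u := by
          rintro rfl
          exact hu1' hz
        obtain ⟨_, j', v', hj', hv', h4⟩ := cv.ex hq hK hz
        rw [opair_inj] at h4
        obtain ⟨rfl, rfl⟩ := h4
        exact hu2 v hv' h3
      · left
        have h1 : E z (md q e (At e p)) := bck_mem_md.2 (Or.inl ⟨hz, h⟩)
        refine ⟨h1, fun h2 => h ?_⟩
        rw [bck_mem_At] at h2 ⊢
        exact ⟨hz, h2.2⟩

end SW.DV
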