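import Pool.Agent.H83.DV.CRD

/-!
Module BKL: bookkeeping.
-/

set_option linter.unusedVariables false
set_option synthInstance.maxSize 100000

namespace SW.DV

theorem bkl_inf {M : Type} [SetStr M] [ZF M] {e k m : M} (he : Inje e) (hk : E k om)
    (hm : E m om) : ∃ r, E r om ∧ ¬ E (app e (opair k r)) m := by
  by_contra hcon
  have h1 : ∀ r, E r om → E (app e (opair k r)) m := fun r hr => by
    by_contra h
    exact hcon ⟨r, hr, h⟩
  have h2 : Fnt (om : M) := by
    refine finF.sub (finF.img (x := m)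
      (fun i : M => the (fun r : M => E r om ∧ app e (opair k r) = i)) inferInstance
      (finF.nat hm)) fun r hr => ?_
    rw [mem_img' inferInstance]
    refine ⟨_, h1 r hr, (the_eq ⟨hr, rfl⟩ fun z hz => ?_).symm⟩
    exact (opair_inj.1 (he.2 _ _ (mem_prod.2 ⟨hk, hz.1⟩) (mem_prod.2 ⟨hk, hr⟩) hz.2)).2
  obtain ⟨b, hb, hb'⟩ := crd_bdd h2 (Sub.refl _)
  exact not_mem_self b (hb' b hb)

theorem bkl_num (hacf : ACFStmt) (M : Type) [SetStr M] [ZFC M] (X : M) (tk : M → M)
    (htk : Fn1 tk) (hcb : ∀ x, E x X → Cb (tk x)) :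
    ∃ num : M → M, Fn1 num ∧ (∀ x t, E x X → E t (tk x) → ∃ i, E i om ∧
      E (opair t i) (num x)) ∧ ∀ x t t' i, E x X → E t (tk x) → E t' (tk x) → E i om →
      E (opair t i) (num x) → E (opair t' i) (num x) → t = t' := by
  obtain ⟨g, hg⟩ := hacf M (pow (prod (sUn (img X tk)) om))
  have key : ∀ x, E x X →
      (∀ t, E t (tk x) → ∃ i, E i om ∧ E (opair t i) (app g (sep (pow (prod (tk x) om))
        (fun r => (∀ t, E t (tk x) → ∃ i, E i om ∧ E (opair t i) r) ∧ ∀ t t' i, E t (tk x) →
          E t' (tk x) → E i om → E (opair t i) r → E (opair t' i) r → t = t')))) ∧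
      ∀ t t' i, E t (tk x) → E t' (tk x) → E i om → E (opair t i)
        (app g (sep (pow (prod (tk x) om))
        (fun r => (∀ t, E t (tk x) → ∃ i, E i om ∧ E (opair t i) r) ∧ ∀ t t' i, E t (tk x) →
          E t' (tk x) → E i om → E (opair t i) r → E (opair t' i) r → t = t'))) →
        E (opair t' i) (app g (sep (pow (prod (tk x) om))
        (fun r => (∀ t, E t (tk x) → ∃ i, E i om ∧ E (opair t i) r) ∧ ∀ t t' i, E t (tk x) →
          E t' (tk x) → E i om → E (opair t i) r → E (opair t' i) r → t = t'))) → t = t' := by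
    intro x hx
    have h1 := hg (sep (pow (prod (tk x) om))
        (fun r => (∀ t, E t (tk x) → ∃ i, E i om ∧ E (opair t i) r) ∧ ∀ t t' i, E t (tk x) →
          E t' (tk x) → E i om → E (opair t i) r → E (opair t' i) r → t = t'))
      (by
        intro r hr
        rw [mem_sep' inferInstance, mem_pow] at hr
        rw [mem_pow]
        intro z hz
        obtain ⟨t, i, ht, hi, rfl⟩ := mem_prod'.1 (hr.1 z hz)
        rw [mem_prod]
        refine ⟨?_, hi⟩
        rw [mem_sUn]
        exact ⟨tk x, (mem_img' htk).2 ⟨x, hx, rfl⟩, ht⟩)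
      (by
        obtain ⟨f, hf1, hf2⟩ := hcb x hx
        refine ⟨inter f (prod (tk x) om), ?_⟩
        rw [mem_sep' inferInstance, mem_pow]
        refine ⟨fun z hz => (mem_inter.1 hz).2, fun t ht => ?_, fun t t' i ht ht' hi h h' => ?_⟩
        · obtain ⟨i, hi, h⟩ := hf1 t ht
          exact ⟨i, hi, mem_inter.2 ⟨h, mem_prod.2 ⟨ht, hi⟩⟩⟩
        · exact hf2 t t' i ht ht' hi (mem_inter.1 h).1 (mem_inter.1 h').1)
    rw [mem_sep' inferInstance] at h1
    exact h1.2
  refine ⟨fun x => app g (sep (pow (prod (tk x) om))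
        (fun r => (∀ t, E t (tk x) → ∃ i, E i om ∧ E (opair t i) r) ∧ ∀ t t' i, E t (tk x) →
          E t' (tk x) → E i om → E (opair t i) r → E (opair t' i) r → t = t')), inferInstance,
    fun x t hx ht => (key x hx).1 t ht, fun x t t' i hx => (key x hx).2 t t' i⟩

theorem bkl_next (hacf : ACFStmt) (heij : EIJStmt) (M : Type) [SetStr M] [ZFC M] (X : M)
    (R Dn : M → M → Prop) (tk num : M → M) (e : M) (hR : Cl2 R) (hDn : Cl2 Dn) (htk : Fn1 tk)
    (hnum : Fn1 num) (he : Inje e)
    (hne : ∀ x, E x X → ∃ y, E y X ∧ R x y)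
    (htask : ∀ x x' t, E x X → E x' X → E t (tk x') → ∃ y, E y X ∧ R x y ∧ Dn t y)
    (hn2 : ∀ x t t' i, E x X → E t (tk x) → E t' (tk x) → E i om →
      E (opair t i) (num x) → E (opair t' i) (num x) → t = t') :
    ∃ nx : M → M → M, Fn2 nx ∧ ∀ n h, E n om → (∀ m, E m (suc n) → E (app h m) X) →
      E (nx n h) X ∧ R (app h n) (nx n h) ∧ ∀ m i r t, E m (suc n) → E i om → E r om →
        n = app e (opair (app e (opair m i)) r) → E t (tk (app h m)) →
        E (opair t i) (num (app h m)) → Dn t (nx n h) := by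
  obtain ⟨g, hg⟩ := hacf M X
  refine ⟨fun n h => app g (sep X (fun y => R (app h n) y ∧ ∀ m i r t, E m (suc n) → E i om →
        E r om → n = app e (opair (app e (opair m i)) r) → E t (tk (app h m)) →
        E (opair t i) (num (app h m)) → Dn t y)), inferInstance, fun n h hn hh => ?_⟩
  have h1 := hg (sep X (fun y => R (app h n) y ∧ ∀ m i r t, E m (suc n) → E i om →
        E r om → n = app e (opair (app e (opair m i)) r) → E t (tk (app h m)) →
        E (opair t i) (num (app h m)) → Dn t y)) (by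
      intro z hz
      rw [mem_sep' inferInstance] at hz
      exact hz.1) (by
      have hnX : E (app h n) X := hh n (mem_suc.2 (Or.inr rfl))
      by_cases hc : ∃ m i r t, E m (suc n) ∧ E i om ∧ E r om ∧
          n = app e (opair (app e (opair m i)) r) ∧ E t (tk (app h m)) ∧
          E (opair t i) (num (app h m))
      · obtain ⟨m, i, r, t, hm, hi, hr, h1, h2, h3⟩ := hc
        have hmo : E m om := Ord_om.trans (suc_mem_om hn) hm
        obtain ⟨y, hy, hy1, hy2⟩ := htask _ (app h m) t hnX (hh m hm) h2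
        refine ⟨y, (mem_sep' inferInstance).2 ⟨hy, hy1, fun m' i' r' t' hm' hi' hr' h1' h2' h3' =>
          ?_⟩⟩
        have hmo' : E m' om := Ord_om.trans (suc_mem_om hn) hm'
        have h4 := he.2 _ _ (mem_prod.2 ⟨he.1 _ (mem_prod.2 ⟨hmo, hi⟩), hr⟩)
          (mem_prod.2 ⟨he.1 _ (mem_prod.2 ⟨hmo', hi'⟩), hr'⟩) (h1.symm.trans h1')
        rw [opair_inj] at h4
        have h5 := he.2 _ _ (mem_prod.2 ⟨hmo, hi⟩) (mem_prod.2 ⟨hmo', hi'⟩) h4.1
        rw [opair_inj] at h5
        obtain ⟨rfl, rfl⟩ := h5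
        rw [← hn2 _ t t' i (hh m hm) h2 h2' hi h3 h3']
        exact hy2
      · obtain ⟨y, hy, hy1⟩ := hne _ hnX
        refine ⟨y, (mem_sep' inferInstance).2 ⟨hy, hy1, fun m i r t hm hi hr h1 h2 h3 => ?_⟩⟩
        exact absurd ⟨m, i, r, t, hm, hi, hr, h1, h2, h3⟩ hc)
  rw [mem_sep' inferInstance] at h1
  exact h1

theorem dv_bkl (hacf : ACFStmt) (heij : EIJStmt) : BKLStmt := by
  intro M _ _ X x0 R Dn tk hR hDn htk hx0 hcb hne htask
  obtain ⟨e, he⟩ := heij M
  obtain ⟨num, hnum, hn1, hn2⟩ := bkl_num hacf M X tk htk hcb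
  obtain ⟨nx, hnx, hnx1⟩ := bkl_next hacf heij M X R Dn tk num e hR hDn htk hnum he hne htask hn2
  -- the histories
  have hH : Fn1 (fun y : M => opair (suc (fs y))
    (ins (opair (suc (fs y)) (nx (fs y) (sn y))) (sn y))) := inferInstance
  obtain ⟨hs, hhs, hh0, hhsuc⟩ : ∃ hs : M → M, Fn1 hs ∧ hs emp = opair emp (sing (opair emp x0)) ∧
      ∀ n, E n om → hs (suc n) = opair (suc (fs (hs n)))
        (ins (opair (suc (fs (hs n))) (nx (fs (hs n)) (sn (hs n)))) (sn (hs n))) :=
    ⟨fun n => orec (opair emp (sing (opair emp x0))) (fun y : M => opair (suc (fs y))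
      (ins (opair (suc (fs y)) (nx (fs y) (sn y))) (sn y))) n, inferInstance, orec_zero hH,
      fun n hn => orec_suc hH hn⟩
  have hfs : ∀ n, E n om → fs (hs n) = n := by
    refine om_ind (C := fun n : M => fs (hs n) = n) inferInstance ?_ ?_
    · rw [hh0, fs_op]
    · intro n hn ih
      rw [hhsuc n hn, fs_op, ih]
  have hsn0 : sn (hs emp) = sing (opair emp x0) := by rw [hh0, sn_op]
  have hsn1 : ∀ n, E n om → sn (hs (suc n)) =
      ins (opair (suc n) (nx n (sn (hs n)))) (sn (hs n)) := by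
    intro n hn
    rw [hhsuc n hn, sn_op, hfs n hn]
  -- the sequence
  have hfF : Fn1 (fun n : M => app (sn (hs n)) n) := inferInstance
  have hf : ∀ n, E n om → app (gr om (fun n => app (sn (hs n)) n)) n = app (sn (hs n)) n :=
    fun n hn => app_gr inferInstance hn
  have hinv : ∀ n, E n om → ∀ m v, E (opair m v) (sn (hs n)) ↔ E m (suc n) ∧
      v = app (sn (hs m)) m := by
    refine om_ind (C := fun n : M => ∀ m v : M, E (opair m v) (sn (hs n)) ↔ E m (suc n) ∧
      v = app (sn (hs m)) m) inferInstance ?_ ?_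
    · intro m v
      have h1 : app (sn (hs emp)) emp = x0 := by
        rw [hsn0]
        refine the_eq (mem_sing.2 rfl) fun z hz => ?_
        rw [mem_sing, opair_inj] at hz
        exact hz.2
      rw [hsn0, mem_sing, opair_inj, mem_suc]
      constructor
      · rintro ⟨rfl, rfl⟩
        exact ⟨Or.inr rfl, h1.symm⟩
      · rintro ⟨h | rfl, rfl⟩
        · exact absurd h (not_mem_emp _)
        · exact ⟨rfl, h1⟩
    · intro n hn ih m v
      have h1 : app (sn (hs (suc n))) (suc n) = nx n (sn (hs n)) := by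
        rw [hsn1 n hn]
        refine the_eq (mem_ins.2 (Or.inr rfl)) fun z hz => ?_
        rw [mem_ins, opair_inj] at hz
        rcases hz with hz | hz
        · exact absurd ((ih _ _).1 hz).1 (not_mem_self _)
        · exact hz.2
      rw [hsn1 n hn, mem_ins, opair_inj, ih, mem_suc (x := suc n)]
      constructor
      · rintro (⟨h, rfl⟩ | ⟨rfl, rfl⟩)
        · exact ⟨Or.inl h, rfl⟩
        · exact ⟨Or.inr rfl, h1.symm⟩
      · rintro ⟨h | rfl, rfl⟩
        · exact Or.inl ⟨h, rfl⟩
        · exact Or.inr ⟨rfl, h1⟩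
  have happ : ∀ n m, E n om → E m (suc n) → app (sn (hs n)) m = app (sn (hs m)) m := by
    intro n m hn hm
    exact the_eq ((hinv n hn m _).2 ⟨hm, rfl⟩) fun z hz => ((hinv n hn m z).1 hz).2
  have hnew : ∀ n, E n om → app (sn (hs (suc n))) (suc n) = nx n (sn (hs n)) := by
    intro n hn
    rw [hsn1 n hn]
    refine the_eq (mem_ins.2 (Or.inr rfl)) fun z hz => ?_
    rw [mem_ins, opair_inj] at hz
    rcases hz with hz | hz
    · exact absurd ((hinv n hn _ _).1 hz).1 (not_mem_self _)
    · exact hz.2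
  have hX : ∀ n, E n om → ∀ m, E m (suc n) → E (app (sn (hs m)) m) X := by
    refine om_ind (C := fun n : M => ∀ m : M, E m (suc n) → E (app (sn (hs m)) m) X)
      inferInstance ?_ ?_
    · intro m hm
      rcases mem_suc.1 hm with h | rfl
      · exact absurd h (not_mem_emp _)
      · have h1 : app (sn (hs emp)) emp = x0 := by
          rw [hsn0]
          refine the_eq (mem_sing.2 rfl) fun z hz => ?_
          rw [mem_sing, opair_inj] at hz
          exact hz.2
        rw [h1]
        exact hx0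
    · intro n hn ih m hm
      rcases mem_suc.1 hm with h | rfl
      · exact ih m h
      · rw [hnew n hn]
        refine (hnx1 n _ hn fun m hm => ?_).1
        rw [happ n m hn hm]
        exact ih m hm
  have hstep : ∀ n, E n om → R (app (sn (hs n)) n) (app (sn (hs (suc n))) (suc n)) ∧
      ∀ m i r t, E m (suc n) → E i om → E r om →
        n = app e (opair (app e (opair m i)) r) → E t (tk (app (sn (hs m)) m)) →
        E (opair t i) (num (app (sn (hs m)) m)) → Dn t (app (sn (hs (suc n))) (suc n)) := by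
    intro n hn
    have h1 := hnx1 n (sn (hs n)) hn fun m hm => by
      rw [happ n m hn hm]
      exact hX n hn m hm
    rw [hnew n hn]
    refine ⟨h1.2.1, fun m i r t hm hi hr h2 h3 h4 => h1.2.2 m i r t hm hi hr h2 ?_ ?_⟩
    · rw [happ n m hn hm]; exact h3
    · rw [happ n m hn hm]; exact h4
  refine ⟨gr om (fun n => app (sn (hs n)) n), ?_, fun n hn => ⟨?_, ?_⟩, fun n t hn ht => ?_⟩
  · rw [hf emp emp_mem_om, hsn0]
    refine the_eq (mem_sing.2 rfl) fun z hz => ?_
    rw [mem_sing, opair_inj] at hz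
    exact hz.2
  · rw [hf n hn]
    exact hX n hn n (mem_suc.2 (Or.inr rfl))
  · rw [hf n hn, hf _ (suc_mem_om hn)]
    exact (hstep n hn).1
  · rw [hf n hn] at ht
    have hxn := hX n hn n (mem_suc.2 (Or.inr rfl))
    obtain ⟨i, hi, hi'⟩ := hn1 _ t hxn ht
    obtain ⟨r, hr, hr'⟩ := bkl_inf he (he.1 _ (mem_prod.2 ⟨hn, hi⟩)) hn
    have hk : E (app e (opair (app e (opair n i)) r)) om :=
      he.1 _ (mem_prod.2 ⟨he.1 _ (mem_prod.2 ⟨hn, hi⟩), hr⟩)
    have h1 : E n (suc (app e (opair (app e (opair n i)) r))) := by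
      rw [mem_suc]
      rcases (Ord_nat hn).tri (Ord_nat hk) with h | h | h
      · exact Or.inl h
      · exact Or.inr h
      · exact absurd h hr'
    refine ⟨suc (app e (opair (app e (opair n i)) r)), suc_mem_om hk, h1, ?_⟩
    rw [hf _ (suc_mem_om hk)]
    exact (hstep _ hk).2 n i r t h1 hi hr rfl ht hi'

end SW.DV
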