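import Pool.Agent.H35.DV.Stmts
import Pool.Agent.H31.CT.CCZ

/-!
Module CCZ: antichains are images of `Z`.
-/

set_option linter.unusedVariables false
set_option synthInstance.maxSize 100000

namespace SW.DV

section
variable {M : Type} [SetStr M] [ZF M]

theorem dccz_col {p K b x : M} (h : Et p K b x) : Col p K := ⟨b, x, h⟩

theorem dccz_union {w Z I p p' : M} (cv : CvFacts w Z I) (hcb : CbA M) (htmo : TMOStmt)
    (hB : Bs w Z) (hI : ¬ E emp I) (hp : E p (PQ w Z I)) (hp' : E p' (PQ w Z I))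
    (hagr : CczAgr p p') : E (bun p p') (PQ w Z I) := by
  obtain ⟨a, ha⟩ := mem_PQ.1 hp
  obtain ⟨a', ha'⟩ := mem_PQ.1 hp'
  have hemp : ∀ b x, Et p emp b x ↔ Et p' emp b x := fun b x => hagr emp b x (Or.inl rfl)
  have haa : a = a' := by
    refine SW.ext fun b => ⟨fun hb => ?_, fun hb => ?_⟩
    · obtain ⟨x, hx⟩ := ha.2.2.1.2.2.1 b hb
      exact cv.rowb ha' ((hemp b x).1 hx)
    · obtain ⟨x, hx⟩ := ha'.2.2.1.2.2.1 b hb
      exact cv.rowb ha ((hemp b x).2 hx)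
  subst haa
  have hL1 : ∀ b x, Et (bun p p') emp b x ↔ Et p emp b x := by
    intro b x
    rw [ccz_et, ← hemp]
    exact ⟨fun h => h.elim id id, Or.inl⟩
  have hsub : Sub p (bun p p') := fun z hz => mem_bun.2 (Or.inl hz)
  have hsub' : Sub p' (bun p p') := fun z hz => mem_bun.2 (Or.inr hz)
  -- each column is a column of `p` or of `p'`
  have hK : ∀ K, E K I → (∀ n z, Et (bun p p') K n z ↔ Et p K n z) ∨
      (∀ n z, Et (bun p p') K n z ↔ Et p' K n z) := by
    intro K hK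
    by_cases hc : Col p' K
    · refine Or.inr fun n z => ?_
      rw [ccz_et]
      refine ⟨fun h => h.elim (fun h => ?_) id, Or.inr⟩
      exact (hagr K n z (Or.inr ⟨dccz_col h, hc⟩)).1 h
    · refine Or.inl fun n z => ?_
      rw [ccz_et]
      refine ⟨fun h => h.elim id (fun h => ?_), Or.inl⟩
      exact absurd (dccz_col h) hc
  have main : ∀ K r, E K I → Cnd w Z I a r → Sub r (bun p p') →
      (∀ b x, Et (bun p p') emp b x ↔ Et r emp b x) →
      (∀ n z, Et (bun p p') K n z ↔ Et r K n z) → KLw K (bun p p') := by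
    intro K r hK hr hs he h
    have hcol : ∀ n, col (bun p p') K n = col r K n := by
      intro n
      refine SW.ext fun z => ?_
      rw [mem_col, mem_col, h]
    refine ⟨fun n z hz => (hr.2.2.2 K hK).1 n z ((h n z).1 hz), fun n hn => ?_,
      fun b f c S hrw => ?_⟩
    · rw [hcol]
      exact (hr.2.2.2 K hK).2.1 n hn
    · rcases (hr.2.2.2 K hK).2.2 b f c S ((he _ _).1 hrw) with hT | hG
      · refine Or.inl (htmo M w Z I a r (bun p p') K b hB hI hr hK hs (fun n j hn hj => ?_) hT)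
        rw [hcol]
        exact ((hr.2.2.2 K hK).2.1 n hn).2.1 j hj
      · refine Or.inr fun n hn => ?_
        rw [hcol]
        exact hG n hn
  refine mem_PQ.2 ⟨a, ha.1, ⟨hcb.bun ha.2.1.1 ha'.2.1.1, fun z hz => ?_⟩, ⟨fun b x hx => ?_,
      fun b x x' hx hx' => ?_, fun b hb' => ?_, fun b b' f c S f' c' S' hbb h1 h2 => ?_⟩,
      fun K hKI => ?_⟩
  · exact (mem_bun.1 hz).elim (ha.2.1.2 z) (ha'.2.1.2 z)
  · rw [hL1] at hx
    exact ha.2.2.1.1 b x hx
  · rw [hL1] at hx hx'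
    exact ha.2.2.1.2.1 b x x' hx hx'
  · obtain ⟨x, hx⟩ := ha.2.2.1.2.2.1 b hb'
    exact ⟨x, hsub _ hx⟩
  · exact ha.2.2.1.2.2.2 b b' f c S f' c' S' hbb ((hL1 _ _).1 h1) ((hL1 _ _).1 h2)
  · rcases hK K hKI with h | h
    · exact main K p hKI ha hsub hL1 h
    · refine main K p' hKI ha' hsub' (fun b x => ?_) h
      rw [hL1, hemp]

end

theorem dv_ccz (hacf : ACFStmt) (hcba : CBAStmt) (hzf : ZFXStmt) (hcv : CVXStmt)
    (htmo : TMOStmt) : CCZStmt := by
  intro M _ _ w Z I A hB hI hA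
  have zf := hzf M w Z hB
  have cb := hcba M
  obtain ⟨g, hg⟩ := hacf M A
  -- numberings of the columns
  obtain ⟨N, hN⟩ := ncn_chs hacf A (fun p f : M => ∀ K : M, Col p K →
      ∃ n : M, E n om ∧ K = app f n) inferInstance (fun p hp => by
    obtain ⟨a, ha⟩ := mem_PQ.1 (hA.1 p hp)
    obtain ⟨f, hf1, hf2⟩ := ha.2.1.1
    have hdf : Fn1 (fun n : M => the (fun K : M => ∃ b x : M, Et p K b x ∧
        E (opair (opair K (opair b x)) n) f)) := inferInstance
    refine ⟨gr om (fun n : M => the (fun K : M => ∃ b x : M, Et p K b x ∧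
        E (opair (opair K (opair b x)) n) f)), fun K hK => ?_⟩
    obtain ⟨b, x, h⟩ := hK
    obtain ⟨n, hn, hn'⟩ := hf1 _ h
    refine ⟨n, hn, ?_⟩
    rw [app_gr hdf hn]
    symm
    refine the_eq ⟨b, x, h, hn'⟩ ?_
    rintro K' ⟨b', x', h', h''⟩
    have := hf2 _ _ n h' h hn h'' hn'
    rw [opair_inj] at this
    exact this.1)
  have hVdf : Fn1 (fun z : M => cczV A g N z) := inferInstance
  have hS : ∀ K, E K (img Z (fun z : M => cczV A g N z)) ↔ ∃ z, E z Z ∧ K = cczV A g N z :=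
    fun K => mem_img' hVdf
  -- codes
  obtain ⟨Y, hY⟩ := ncn_chs hacf (img Z (fun z : M => cczV A g N z))
    (fun K z : M => E z Z ∧ K = cczV A g N z) inferInstance (fun K hK => (hS K).1 hK)
  have hPhidf : Fn1 (fun c : M => cczPhi A g
      (img c (fun t : M => opair (cczV A g N (ccz_fst t)) (ccz_snd t)))) := inferInstance
  refine ⟨gr Z (fun c : M => cczPhi A g
      (img c (fun t : M => opair (cczV A g N (ccz_fst t)) (ccz_snd t)))), fun p hp => ?_⟩
  have hpq0 := hA.1 p hp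
  obtain ⟨a, ha⟩ := mem_PQ.1 hpq0
  obtain ⟨s2, s3⟩ := ha.2.1
  -- the part with columns in `S`
  obtain ⟨r, hr⟩ : ∃ r : M, ∀ t, E t r ↔ E t p ∧
      E (ccz_fst t) (img Z (fun z : M => cczV A g N z)) :=
    ⟨sep p (fun t : M => E (ccz_fst t) (img Z (fun z : M => cczV A g N z))),
      fun t => mem_sep' inferInstance⟩
  have hrp : Sub r p := fun t ht => ((hr t).1 ht).1
  have hrE : ∀ K b x, Et r K b x ↔ Et p K b x ∧ E K (img Z (fun z : M => cczV A g N z)) := by
    intro K b x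
    unfold Et
    rw [hr, ccz_fst_op]
  have hcdf : Fn1 (fun t : M => opair (app Y (ccz_fst t)) (ccz_snd t)) := inferInstance
  have hc : ∀ t, E t (img r (fun t : M => opair (app Y (ccz_fst t)) (ccz_snd t))) ↔
      ∃ s, E s r ∧ t = opair (app Y (ccz_fst s)) (ccz_snd s) := fun t => mem_img' hcdf
  obtain ⟨c, hcdef⟩ : ∃ c : M, c = img r (fun t : M => opair (app Y (ccz_fst t)) (ccz_snd t)) :=
    ⟨_, rfl⟩
  rw [← hcdef] at hc
  have hcZ : E c Z := by
    refine hB.sc c (fun t ht => ?_) ?_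
    · obtain ⟨s, hs, rfl⟩ := (hc t).1 ht
      obtain ⟨hsp, hsS⟩ := (hr s).1 hs
      obtain ⟨K, b, x, _, hb, hx, rfl⟩ := s3 s hsp
      rw [ccz_snd_op]
      exact zf.opZ (hY _ hsS).1 (zf.opZ (zf.wZ b hb) hx)
    · rw [hcdef]
      exact cb.img _ hcdf (cb.sub s2 hrp)
  have hcp : ∀ t, E t c → ∃ y s, t = opair y s := fun t ht => by
    obtain ⟨s, hs, rfl⟩ := (hc t).1 ht
    exact ⟨_, _, rfl⟩
  have hrc : img c (fun t : M => opair (cczV A g N (ccz_fst t)) (ccz_snd t)) = r := by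
    refine SW.ext fun z => ?_
    rw [mem_img' inferInstance]
    constructor
    · rintro ⟨t, ht, rfl⟩
      obtain ⟨s, hs, rfl⟩ := (hc t).1 ht
      obtain ⟨hsp, hsS⟩ := (hr s).1 hs
      rw [ccz_fst_op, ccz_snd_op, ← (hY _ hsS).2]
      obtain ⟨K, b, x, _, hb, hx, rfl⟩ := s3 s hsp
      rw [ccz_fst_op, ccz_snd_op]
      exact hs
    · intro hz
      obtain ⟨hsp, hsS⟩ := (hr z).1 hz
      refine ⟨opair (app Y (ccz_fst z)) (ccz_snd z), (hc _).2 ⟨z, hz, rfl⟩, ?_⟩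
      rw [ccz_fst_op, ccz_snd_op, ← (hY _ hsS).2]
      obtain ⟨K, b, x, _, hb, hx, rfl⟩ := s3 z hsp
      rw [ccz_fst_op, ccz_snd_op]
  have hempS : E (emp : M) (img Z (fun z : M => cczV A g N z)) :=
    (hS emp).2 ⟨emp, zf.eZ, (cczV_emp A g N).symm⟩
  -- the chosen member
  have hset : ∀ q, E q (sep A (fun p : M => CczAgr p r)) ↔ E q A ∧ CczAgr q r :=
    fun q => mem_sep' inferInstance
  have hpr : CczAgr p r := by
    intro K b x h
    rw [hrE]
    constructor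
    · intro h1
      refine ⟨h1, ?_⟩
      rcases h with rfl | ⟨_, b', x', h2⟩
      · exact hempS
      · exact ((hrE _ _ _).1 h2).2
    · exact fun h1 => h1.1
  have hPhi : E (cczPhi A g r) A ∧ CczAgr (cczPhi A g r) r :=
    (hset _).1 (hg _ (fun z hz => ((hset z).1 hz).1) ⟨p, (hset p).2 ⟨hp, hpr⟩⟩)
  have hcols : ∀ K, Col (cczPhi A g r) K → E K (img Z (fun z : M => cczV A g N z)) := by
    intro K hK
    obtain ⟨n, hn, rfl⟩ := hN _ hPhi.1 K hK
    refine (hS _).2 ⟨opair c n, zf.opZ hcZ (zf.omZ n hn), ?_⟩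
    rw [cczV_eq A g N hcp, hrc]
  have hagr : CczAgr p (cczPhi A g r) := by
    intro K b x h
    rcases h with rfl | ⟨h1, h2⟩
    · rw [hPhi.2 emp b x (Or.inl rfl), hpr emp b x (Or.inl rfl)]
    · have hKS := hcols K h2
      have hcr : Col r K := by
        obtain ⟨b', x', h3⟩ := h1
        exact ⟨b', x', (hrE _ _ _).2 ⟨h3, hKS⟩⟩
      rw [hPhi.2 K b x (Or.inr ⟨h2, hcr⟩), hpr K b x (Or.inr ⟨h1, hcr⟩)]
  have heq : p = cczPhi A g r := by
    by_contra hne
    refine hA.2 p _ hp hPhi.1 hne ⟨bun p (cczPhi A g r), ?_, fun z hz => mem_bun.2 (Or.inl hz),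
      fun z hz => mem_bun.2 (Or.inr hz)⟩
    exact dccz_union (hcv M w Z I hB hI) cb htmo hB hI hpq0 (hA.1 _ hPhi.1) hagr
  refine ⟨c, hcZ, ?_⟩
  rw [app_gr hPhidf hcZ, hrc]
  exact heq

end SW.DV
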