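import Pool.Agent.H35.DV.Stmts

/-!
Module COG: the generic columns.
-/

set_option linter.unusedVariables false
set_option synthInstance.maxSize 100000

namespace SW.DV

theorem dv_cog (hcv : CVXStmt) (hexh : EXHStmt) (htre : TREStmt) : COGStmt := by
  intro M _ _ _ w Z I K G hns hK hG _ b hbw
  have hI := hns.emp
  have hb := hns.bs
  have cv := hcv M w Z I hb hI
  have gf := genF hG
  have ef := embF hG
  have tf := traF hG
  have hcnd : ∀ p, G p → ∃ a, Cnd w Z I a p := fun p hp => mem_PQ.1 (hG.sub p hp)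
  have heps : Eps I (emp : M) := ⟨finF.emp, fun x hx => absurd hx (not_mem_emp x)⟩
  obtain ⟨p, hp, h, r, f, c, S, hr, hhr, hls, h1, h2⟩ := gf.meetC (fun q => Tr q K b)
    inferInstance (by
      intro p hp
      obtain ⟨q, a, hq, hpq, hba⟩ := hexh M w Z I p b hns hp hbw
      obtain ⟨q', hq', hqq, _, hT⟩ := htre M w Z I a q emp K b hns hK hq hba heps
      exact ⟨q', hq', hpq.trans hqq, hT⟩)
  obtain ⟨a, ha⟩ := hcnd p hp
  have hf := (cv.rowl ha hr).1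
  have hm : ∀ n j v, E (opair (emb (PG w Z I) G n) (opair (emb (PG w Z I) G j)
      (emb (PG w Z I) G v))) (mk (PG w Z I) G (GK w Z I K)) ↔
      ∃ p', G p' ∧ E n om ∧ E j om ∧ E v om ∧ E v (suc j) ∧ Ex p' K n j emp ∧
        ¬ Ex p' K n j v := by
    intro n j v
    unfold GK
    rw [← tf.opair, ← tf.opair, mem_mk_Nmx hG inferInstance]
    constructor
    · rintro ⟨p', x, hp', hx, ⟨n', j', v', h3, h4, h5, rfl⟩, h6⟩
      rw [ef.inj, opair_inj, opair_inj] at h6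
      obtain ⟨rfl, rfl, rfl⟩ := h6
      rw [mem_prod, mem_prod] at hx
      exact ⟨p', hp', hx.1, hx.2.1, hx.2.2, h3, h4, h5⟩
    · rintro ⟨p', hp', hn, hj, hv, h3, h4, h5⟩
      exact ⟨p', _, hp', mem_prod.2 ⟨hn, mem_prod.2 ⟨hj, hv⟩⟩, ⟨n, j, v, h3, h4, h5, rfl⟩, rfl⟩
  refine ⟨p, f, c, S, h, r, hp, hr, hf, hhr, hls, fun n hn => ?_, fun m hmo => ?_⟩
  · obtain ⟨m, hmo, h3⟩ := h1 n hn
    refine ⟨m, hmo, fun j hj hmj h4 => ?_⟩
    obtain ⟨p', hp', _, _, _, h5, h6, h7⟩ := (hm n j _).1 h4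
    obtain ⟨q, hq, h8, h9⟩ := hG.dir p p' hp hp'
    obtain ⟨aq, haq⟩ := hcnd q hq
    obtain ⟨a', ha'⟩ := hcnd p' hp'
    obtain ⟨u, hu, hu'⟩ := (((haq.2.2.2 K hK).2.1 n hn).2.1 j hj).1
    rw [cv.colx haq hK] at hu'
    have h10 := (((ha'.2.2.2 K hK).2.1 n hn).2.1 j hj).2 u (app f j) ((cv.colx ha' hK).2 h6)
      hu h5 (fun h => hu' (h9 _ ((cv.colx ha' hK).1 h))) (fun h => h7 ((cv.colx ha' hK).1 h))
    rw [h10] at hu'
    exact hu' (h8 _ (h3 j hj hmj))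
  · obtain ⟨n, j, hn, hmn, hj, h3, h4, h5⟩ := h2 m hmo
    have h6 := (hf.2 j hj).1
    exact ⟨n, j, hn, hmn, hj, h3, (hm n j _).2 ⟨p, hp, hn, hj,
      Ord_om.trans (suc_mem_om hj) h6, h6, h4, h5⟩⟩

end SW.DV
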