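import Pool.Agent.H35.DV.Stmts

/-!
Module CRD: facts about cardinalities of finite sets.
-/

set_option linter.unusedVariables false
set_option synthInstance.maxSize 100000

namespace SW.DV

section
variable {M : Type} [SetStr M] [ZF M]

theorem crd_del {X a k : M} (hX : Fnt X) (hk : E k om) (h : E (suc k) (card X)) :
    E k (card (diff X (sing a))) := by
  by_cases ha : E a X
  · have hD : Fnt (diff X (sing a)) := finF.sub hX fun z hz => (mem_diff.1 hz).1
    have h1 : X = ins a (diff X (sing a)) := by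
      refine SW.ext fun z => ?_
      rw [mem_ins, mem_diff, mem_sing]
      constructor
      · intro hz
        by_cases hza : z = a
        · exact Or.inr hza
        · exact Or.inl ⟨hz, hza⟩
      · rintro (⟨hz, _⟩ | rfl)
        · exact hz
        · exact ha
    have h2 : card X = suc (card (diff X (sing a))) := by
      conv_lhs => rw [h1]
      exact finF.card_ins hD fun hz => (mem_diff.1 hz).2 (mem_sing.2 rfl)
    rw [h2] at h
    exact (suc_mem_suc (Ord_nat hk) (Ord_nat (finF.card_om hD))).1 h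
  · have h1 : diff X (sing a) = X := by
      refine SW.ext fun z => ?_
      rw [mem_diff, mem_sing]
      refine ⟨fun hz => hz.1, fun hz => ⟨hz, ?_⟩⟩
      rintro rfl
      exact ha hz
    rw [h1]
    exact (Ord_nat (finF.card_om hX)).trans h (mem_suc.2 (Or.inr rfl))

theorem crd_pig {k : M} (g : M → M) (hg : Fn1 g) (hk : E k om) : ∀ X : M, Fnt X →
    E k (card X) → ∃ v, E v X ∧ ∀ i, E i k → v ≠ g i := by
  refine om_ind (C := fun k : M => ∀ X : M, Fnt X → E k (card X) →
    ∃ v : M, E v X ∧ ∀ i : M, E i k → v ≠ g i) inferInstance ?_ ?_ k hk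
  · intro X hX h
    by_contra hcon
    have h1 : X = emp := eq_emp fun z hz => hcon ⟨z, hz, fun i hi => absurd hi (not_mem_emp i)⟩
    rw [h1, finF.card_emp] at h
    exact not_mem_emp _ h
  · intro k hk ih X hX h
    obtain ⟨v, hv, hv'⟩ := ih (diff X (sing (g k)))
      (finF.sub hX fun z hz => (mem_diff.1 hz).1) (crd_del hX hk h)
    rw [mem_diff, mem_sing] at hv
    refine ⟨v, hv.1, fun i hi => ?_⟩
    rw [mem_suc] at hi
    rcases hi with hi | rfl
    · exact hv' i hi
    · exact hv.2

theorem crd_max {m n : M} (hm : E m om) (hn : E n om) :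
    E (bun m n) om ∧ Sub m (bun m n) ∧ Sub n (bun m n) := by
  refine ⟨?_, fun z hz => mem_bun.2 (Or.inl hz), fun z hz => mem_bun.2 (Or.inr hz)⟩
  have h1 : Sub m n ∨ Sub n m := by
    rcases (Ord_nat hm).tri (Ord_nat hn) with h | h | h
    · exact Or.inl ((Ord_nat hn).sub_of_mem h)
    · rw [h]; exact Or.inl (Sub.refl n)
    · exact Or.inr ((Ord_nat hm).sub_of_mem h)
  rcases h1 with h | h
  · have : bun m n = n := SW.ext fun z => by
      rw [mem_bun]; exact ⟨fun hz => hz.elim (h z) id, Or.inr⟩
    rw [this]; exact hn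
  · have : bun m n = m := SW.ext fun z => by
      rw [mem_bun]; exact ⟨fun hz => hz.elim id (h z), Or.inl⟩
    rw [this]; exact hm

theorem crd_bdd {x : M} (hx : Fnt x) (h : Sub x om) : ∃ m, E m om ∧ ∀ n, E n x → E n m := by
  revert h
  refine finF.ind (fun x : M => Sub x om → ∃ m : M, E m om ∧ ∀ n : M, E n x → E n m)
    inferInstance ?_ ?_ x hx
  · intro _
    exact ⟨emp, emp_mem_om, fun n hn => absurd hn (not_mem_emp n)⟩
  · intro x a hx ha ih h
    obtain ⟨m, hm, hm'⟩ := ih fun z hz => h z (mem_ins.2 (Or.inl hz))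
    have ha' : E a om := h a (mem_ins.2 (Or.inr rfl))
    obtain ⟨h1, h2, h3⟩ := crd_max hm (suc_mem_om ha')
    refine ⟨bun m (suc a), h1, fun n hn => ?_⟩
    rw [mem_ins] at hn
    rcases hn with hn | rfl
    · exact h2 n (hm' n hn)
    · exact h3 _ (mem_suc.2 (Or.inr rfl))

end

theorem dv_crd : CRDStmt := by
  intro M _ _
  refine ⟨?_, ?_, ?_, ?_, ?_, ?_⟩
  · intro X k g hg hX hk h
    exact crd_pig g hg hk X hX h
  · intro X a k hX hk h
    exact crd_del hX hk h
  · intro X Y k hX hs h
    exact finF.card_le hX hs k h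
  · intro s j hj
    exact finF.sub (finF.nat (suc_mem_om hj)) fun z hz => (mem_Wn.1 hz).1
  · intro m n hm hn
    exact crd_max hm hn
  · intro x hx h
    exact crd_bdd hx h

end SW.DV
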