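import Pool.Agent.H35.DV.Stmts

/-!
Module DNU: totality goes up to larger systems.
-/

set_option linter.unusedVariables false
set_option synthInstance.maxSize 100000

namespace SW.DV

theorem dv_dnu (hext : EXTStmt) (hrst : RSTStmt) (hama : AMAStmt) (hlsx : LSXStmt) : DNUStmt := by
  intro M _ _ w Z I J K hb hI hJI hJ hT p b hp hbw
  have ls := hlsx M
  obtain ⟨a, ha⟩ := mem_PQ.1 hp
  -- some function from `om` to `om`
  have hid : Fo (gr om (fun n : M => n)) := by
    refine ⟨fun z hz => ?_, fun n hn => ⟨n, ?_⟩, fun n m m' h h' => ?_⟩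
    · rw [mem_gr' inferInstance] at hz
      obtain ⟨n, hn, rfl⟩ := hz
      exact ⟨n, n, hn, hn, rfl⟩
    · rw [opair_mem_gr inferInstance]
      exact ⟨hn, rfl⟩
    · rw [opair_mem_gr inferInstance] at h h'
      rw [h.2, h'.2]
  obtain ⟨p', f, S, hp', hpp, _, hclo, _⟩ := hext M w Z I a p _ hb hI ha hid
  have hrj := (hrst M w Z I J (suc a) p' hb hI hJI hJ hp').1
  obtain ⟨q', h, r, hq', hrq, hr, hh, hls⟩ := hT _ b (mem_PQ.2 ⟨_, hrj⟩) hbw
  have hU := hama M w Z I J (suc a) p' q' hb hI hJI hJ hp' hclo hq' hrq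
  exact ⟨bun p' q', h, r, hU, hpp.trans fun z hz => mem_bun.2 (Or.inl hz), hr, hh,
    ls.mono (fun z hz => mem_bun.2 (Or.inr hz)) hls⟩

end SW.DV
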