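import Pool.Agent.H83.DV.ESA

/-!
Module EAD: the almost disjoint family.
-/

set_option linter.unusedVariables false
set_option synthInstance.maxSize 100000

namespace SW.DV

section
variable {M : Type} [SetStr M] [ZF M]

theorem ead_inf {e f : M} (he : Inje e) (hf : RL f) : IsInfiniteSubset om (al e f) := by
  refine ⟨fun z hz => ?_, fun n hn => ?_⟩
  · obtain ⟨j, hj, rfl⟩ := esa_mem_al.1 hz
    exact esa_c_om he hf hj
  · obtain ⟨k, hk, hk'⟩ := esa_bd he hf (finF.nat (suc_mem_om hn))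
    refine ⟨_, esa_mem_al.2 ⟨k, hk, rfl⟩, ?_⟩
    have h1 := hk' k hk (Sub.refl k)
    rcases (Ord_nat hn).tri (Ord_nat (esa_c_om he hf hk)) with h | h | h
    · exact h
    · exact absurd (mem_suc.2 (Or.inr h.symm)) h1
    · exact absurd (mem_suc.2 (Or.inl h)) h1

theorem ead_ad {e f g : M} (he : Inje e) (hf : RL f) (hg : RL g) (h : Evd f g) :
    ∃ n, E n om ∧ ∀ m, E m (al e f) → E m (al e g) → E m n := by
  obtain ⟨k, hk, hk'⟩ := h
  obtain ⟨n, hn, hn'⟩ := crd_bdd (x := img k (fun j => esa_c e f j))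
    (finF.img _ inferInstance (finF.nat hk)) (by
      intro z hz
      rw [mem_img' inferInstance] at hz
      obtain ⟨j, hj, rfl⟩ := hz
      exact esa_c_om he hf (Ord_om.trans hk hj))
  refine ⟨n, hn, fun m h1 h2 => hn' m ?_⟩
  obtain ⟨j, hj, rfl⟩ := esa_mem_al.1 h1
  obtain ⟨j', hj', h3⟩ := esa_mem_al.1 h2
  have h4 := he.2 _ _ (mem_prod.2 ⟨hj, esa_app_om hf hj⟩) (mem_prod.2 ⟨hj', esa_app_om hg hj'⟩) h3
  rw [opair_inj] at h4
  obtain ⟨rfl, h4⟩ := h4
  rw [mem_img' inferInstance]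
  refine ⟨j, ?_, rfl⟩
  by_contra h5
  exact hk' j hj (((Ord_nat hj).not_mem_iff (Ord_nat hk)).1 h5) h4

end

theorem dv_ead : EADStmt := by
  intro M _ _ w e A he hrl hevd
  have hB : ∀ a, E a (AF w e A) → ∃ b, E b w ∧ a = al e (app A b) := by
    intro a ha
    unfold AF at ha
    rw [mem_img' inferInstance] at ha
    exact ha
  refine ⟨⟨fun x hx => ?_, fun x y hx hy hxy => ?_⟩, fun b b' hb hb' h => ?_⟩
  · obtain ⟨b, hb, rfl⟩ := hB x hx
    exact ead_inf he (hrl b hb)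
  · obtain ⟨b, hb, rfl⟩ := hB x hx
    obtain ⟨b', hb', rfl⟩ := hB y hy
    refine ead_ad he (hrl b hb) (hrl b' hb') (hevd b b' hb hb' ?_)
    rintro rfl
    exact hxy rfl
  · by_contra hne
    obtain ⟨n, hn, hn'⟩ := ead_ad he (hrl b hb) (hrl b' hb') (hevd b b' hb hb' hne)
    obtain ⟨m, hm, hm'⟩ := (ead_inf he (hrl b hb)).2 n hn
    exact not_mem_cycle hm' (hn' m hm (by rw [← h]; exact hm))

end SW.DV
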