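import Pool.Agent.H83.DV.CRD

/-!
Module ESA: all subfamilies are selectively (a).
-/

set_option linter.unusedVariables false
set_option synthInstance.maxSize 100000

namespace SW.DV

section
variable {M : Type} [SetStr M] [ZF M]

theorem esa_pin {a b R : M} : PairIn a b R ↔ E (opair a b) R := by
  unfold PairIn
  constructor
  · rintro ⟨z, hz, h⟩
    rw [isOP_iff] at hz
    rw [← hz]; exact h
  · intro h
    exact ⟨_, isOP_iff.2 rfl, h⟩

/-- the code of `(j, f j)` -/
noncomputable def esa_c (e f j : M) : M := app e (opair j (app f j))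

theorem esa_c_df : DfT (fun v : Fin 3 → M => esa_c (v 0) (v 1) (v 2)) := by
  unfold esa_c; infer_instance

instance {n : ℕ} {t s u : (Fin n → M) → M} [ht : DfT t] [hs : DfT s] [hu : DfT u] :
    DfT (fun v => esa_c (t v) (s v) (u v)) :=
  esa_c_df.comp3 (f := fun a b c => esa_c a b c) ht hs hu

theorem esa_app_om {f j : M} (hf : RL f) (hj : E j om) : E (app f j) om :=
  Ord_om.trans (suc_mem_om hj) (hf.2 j hj).1

theorem esa_c_om {e f j : M} (he : Inje e) (hf : RL f) (hj : E j om) : E (esa_c e f j) om :=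
  he.1 _ (mem_prod.2 ⟨hj, esa_app_om hf hj⟩)

theorem esa_c_inj {e f j j' : M} (he : Inje e) (hf : RL f) (hj : E j om) (hj' : E j' om)
    (h : esa_c e f j = esa_c e f j') : j = j' :=
  (opair_inj.1 (he.2 _ _ (mem_prod.2 ⟨hj, esa_app_om hf hj⟩)
    (mem_prod.2 ⟨hj', esa_app_om hf hj'⟩) h)).1

theorem esa_mem_al {e f z : M} : E z (al e f) ↔ ∃ j, E j om ∧ z = esa_c e f j := by
  unfold al esa_c
  rw [mem_img' inferInstance]

/-- only finitely many `j` have a code in a finite set -/
theorem esa_fin {e f x : M} (he : Inje e) (hf : RL f) (hx : Fnt x) :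
    Fnt (sep om (fun j => E (esa_c e f j) x)) := by
  refine finF.sub (finF.img (x := x) (fun i : M => the (fun j : M => E j om ∧ esa_c e f j = i))
    inferInstance hx) fun j hj => ?_
  rw [mem_sep' inferInstance] at hj
  rw [mem_img' inferInstance]
  refine ⟨_, hj.2, ?_⟩
  exact (the_eq ⟨hj.1, rfl⟩ fun z hz => esa_c_inj he hf hz.1 hj.1 hz.2).symm

theorem esa_bd {e f x : M} (he : Inje e) (hf : RL f) (hx : Fnt x) :
    ∃ k, E k om ∧ ∀ j, E j om → Sub k j → ¬ E (esa_c e f j) x := by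
  obtain ⟨k, hk, hk'⟩ := crd_bdd (esa_fin he hf hx) fun z hz => (mem_sep.1 hz).1
  refine ⟨k, hk, fun j hj hkj h => ?_⟩
  exact not_mem_self j (hkj j (hk' j ((mem_sep' inferInstance).2 ⟨hj, h⟩)))

theorem esa_al_nom {e f : M} (he : Inje e) (hf : RL f) : ¬ E (al e f) om := by
  intro h
  obtain ⟨k, hk, hk'⟩ := esa_bd he hf (finF.nat h)
  exact hk' k hk (Sub.refl k) (esa_mem_al.2 ⟨k, hk, rfl⟩)

/-- the requirement on `k = F_b n` -/
def esa_Q (e B C f n k : M) : Prop := E k om ∧ ∃ U, E U (app C n) ∧ E (al e f) U ∧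
  ∀ j, E j om → Sub k j → E (esa_c e f j) U

theorem esa_Q_df : Df (fun v : Fin 6 → M => esa_Q (v 0) (v 1) (v 2) (v 3) (v 4) (v 5)) := by
  unfold esa_Q; infer_instance

instance {n : ℕ} {t s u x y z : (Fin n → M) → M} [ht : DfT t] [hs : DfT s] [hu : DfT u]
    [hx : DfT x] [hy : DfT y] [hz : DfT z] :
    Df (fun v => esa_Q (t v) (s v) (u v) (x v) (y v) (z v)) := by
  unfold esa_Q; infer_instance

/-- the functions `F_b` -/
noncomputable def esa_F (w e A B C : M) : M := gr w (fun b => gr om (fun n =>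
  the (fun k => esa_Q e B C (app A b) n k ∧ ∀ i, E i k → ¬ esa_Q e B C (app A b) n i)))

/-- `S_n` -/
noncomputable def esa_S (e P n : M) : M :=
  ins n (img (sep (prod om om) (fun z => E (opair n z) P)) (fun z => app e z))

theorem esa_S_df : DfT (fun v : Fin 3 → M => esa_S (v 0) (v 1) (v 2)) := by
  unfold esa_S; infer_instance

instance {n : ℕ} {t s u : (Fin n → M) → M} [ht : DfT t] [hs : DfT s] [hu : DfT u] :
    DfT (fun v => esa_S (t v) (s v) (u v)) :=
  esa_S_df.comp3 (f := fun a b c => esa_S a b c) ht hs hu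

theorem esa_mem_S {e P n y : M} : E y (esa_S e P n) ↔ y = n ∨ ∃ j v, E j om ∧ E v om ∧
    E (opair n (opair j v)) P ∧ y = app e (opair j v) := by
  unfold esa_S
  rw [mem_ins, mem_img' inferInstance]
  constructor
  · rintro (⟨z, hz, rfl⟩ | h)
    · rw [mem_sep' inferInstance, mem_prod'] at hz
      obtain ⟨⟨j, v, hj, hv, rfl⟩, h⟩ := hz
      exact Or.inr ⟨j, v, hj, hv, h, rfl⟩
    · exact Or.inl h
  · rintro (h | ⟨j, v, hj, hv, h, rfl⟩)
    · exact Or.inr h
    · refine Or.inl ⟨opair j v, ?_, rfl⟩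
      rw [mem_sep' inferInstance, mem_prod]
      exact ⟨⟨hj, hv⟩, h⟩

theorem esa_sing_open {B k : M} (hk : E k om) (hB : ∀ a, E a B → ¬ E a om) :
    IsPsiOpen om B (sing k) := by
  refine ⟨fun x hx => ?_, fun a ha hak => ?_⟩
  · rw [mem_sing] at hx
    rw [hx]; exact Or.inl hk
  · rw [mem_sing] at hak
    rw [hak] at ha
    exact absurd hk (hB _ ha)

end

theorem dv_esa : ESAStmt := by
  intro M _ _ w e A he hrl hevd hsel B hB C D hC hD
  have hBb : ∀ a, E a B → ∃ b, E b w ∧ a = al e (app A b) := by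
    intro a ha
    have := hB a ha
    unfold AF at this
    rw [mem_img' inferInstance] at this
    exact this
  have hBn : ∀ a, E a B → ¬ E a om := by
    intro a ha
    obtain ⟨b, hb, rfl⟩ := hBb a ha
    exact esa_al_nom he (hrl b hb)
  -- the covers as a function
  have hCn : ∀ n, E n om → E (opair n (app C n)) C ∧ IsPsiCover om B (app C n) := by
    intro n hn
    obtain ⟨c, hc, hc1, hc2⟩ := hC n hn
    rw [esa_pin] at hc
    have : app C n = c := the_eq hc fun z hz => hc2 z (esa_pin.2 hz)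
    rw [this]
    exact ⟨hc, hc1⟩
  -- dense sets contain all natural numbers
  have hDom : ∀ k, E k om → E k D := by
    intro k hk
    obtain ⟨x, hx, hx'⟩ := hD.2 (sing k) (esa_sing_open hk hBn) ⟨k, mem_sing.2 rfl⟩
    rw [mem_sing] at hx
    rw [← hx]; exact hx'
  have hQ : ∀ b n, E b w → E n om → E (al e (app A b)) B →
      ∃ k, esa_Q e B C (app A b) n k := by
    intro b n hb hn hbB
    obtain ⟨U, hU, hU'⟩ := (hCn n hn).2.2 _ (Or.inr hbB)
    obtain ⟨m, hm, hm'⟩ := ((hCn n hn).2.1 U hU).2 _ hbB hU'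
    obtain ⟨k, hk, hk'⟩ := esa_bd he (hrl b hb) (finF.nat hm)
    exact ⟨k, hk, U, hU, hU', fun j hj hkj => hm' _ (esa_mem_al.2 ⟨j, hj, rfl⟩) (hk' j hj hkj)⟩
  have hFv : ∀ b n, E b w → E n om → app (app (esa_F w e A B C) b) n =
      the (fun k => esa_Q e B C (app A b) n k ∧ ∀ i, E i k → ¬ esa_Q e B C (app A b) n i) := by
    intro b n hb hn
    unfold esa_F
    rw [app_gr inferInstance hb, app_gr inferInstance hn]
  have hFQ : ∀ b n, E b w → E n om → (∃ k, esa_Q e B C (app A b) n k) →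
      esa_Q e B C (app A b) n (app (app (esa_F w e A B C) b) n) := by
    intro b n hb hn h
    obtain ⟨k, hk⟩ := h
    rw [hFv b n hb hn]
    obtain ⟨k', hk', h1, h2, _⟩ := ord_min (C := fun k : M => esa_Q e B C (app A b) n k)
      inferInstance (Ord_nat hk.1) hk
    have h3 : the (fun k => esa_Q e B C (app A b) n k ∧ ∀ i, E i k →
        ¬ esa_Q e B C (app A b) n i) = k' := by
      refine the_eq ⟨h1, h2⟩ fun z hz => ?_
      rcases (Ord_nat hz.1.1).tri hk' with h4 | h4 | h4
      · exact absurd hz.1 (h2 z h4)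
      · exact h4
      · exact absurd h1 (hz.2 k' h4)
    rw [h3]
    exact h1
  have hFo : ∀ b, E b w → Fo (app (esa_F w e A B C) b) := by
    intro b hb
    have h1 : ∀ n v, E (opair n v) (app (esa_F w e A B C) b) ↔
        E n om ∧ v = app (app (esa_F w e A B C) b) n := by
      intro n v
      constructor
      · intro h
        have h' := h
        unfold esa_F at h'
        rw [app_gr inferInstance hb, opair_mem_gr inferInstance] at h'
        refine ⟨h'.1, ?_⟩
        rw [hFv b n hb h'.1]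
        exact h'.2
      · rintro ⟨hn, rfl⟩
        rw [hFv b n hb hn]
        unfold esa_F
        rw [app_gr inferInstance hb, opair_mem_gr inferInstance]
        exact ⟨hn, rfl⟩
    refine ⟨fun z hz => ?_, fun n hn => ⟨_, (h1 _ _).2 ⟨hn, rfl⟩⟩, fun n m m' h h' => ?_⟩
    · have hz' := hz
      unfold esa_F at hz'
      rw [app_gr inferInstance hb, mem_gr' inferInstance] at hz'
      obtain ⟨n, hn, rfl⟩ := hz'
      refine ⟨_, _, hn, ?_, rfl⟩
      by_cases h : ∃ k, esa_Q e B C (app A b) n k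
      · have := (hFQ b n hb hn h).1
        rw [hFv b n hb hn] at this
        exact this
      · have h2 : the (fun k => esa_Q e B C (app A b) n k ∧ ∀ i, E i k →
            ¬ esa_Q e B C (app A b) n i) = emp := by
          unfold the
          rw [dif_neg]
          rintro ⟨k, hk, _⟩
          exact h ⟨k, hk.1⟩
        rw [h2]
        exact emp_mem_om
    · rw [((h1 _ _).1 h).2, ((h1 _ _).1 h').2]
  obtain ⟨P, hP⟩ := hsel (esa_F w e A B C) hFo
  refine ⟨gr om (fun n => esa_S e P n), fun n hn => ⟨esa_S e P n, ?_, ?_, ?_, ?_⟩, ?_⟩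
  · rw [esa_pin, opair_mem_gr inferInstance]
    exact ⟨hn, rfl⟩
  · intro y hy
    rcases esa_mem_S.1 hy with rfl | ⟨j, v, hj, hv, _, rfl⟩
    · exact hDom _ hn
    · exact hDom _ (he.1 _ (mem_prod.2 ⟨hj, hv⟩))
  · have hSom : ∀ y, E y (esa_S e P n) → E y om := by
      intro y hy
      rcases esa_mem_S.1 hy with rfl | ⟨j, v, hj, hv, _, rfl⟩
      · exact hn
      · exact he.1 _ (mem_prod.2 ⟨hj, hv⟩)
    refine ⟨fun x hx => Or.inl (hSom x hx), ⟨diff (bun om B) (esa_S e P n), ⟨?_, ?_⟩, ?_⟩, ?_⟩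
    · intro x hx
      rw [mem_diff, mem_bun] at hx
      exact hx.1
    · intro a ha _
      obtain ⟨b, hb, rfl⟩ := hBb a ha
      obtain ⟨m, hm, hm'⟩ := (hP b hb).1 n hn
      have hf1 : Fnt (ins n (img m (fun j => esa_c e (app A b) j))) :=
        finF.ins (finF.img _ inferInstance (finF.nat hm))
      have hs1 : Sub (ins n (img m (fun j => esa_c e (app A b) j))) om := by
        intro z hz
        rcases mem_ins.1 hz with hz | rfl
        · rw [mem_img' inferInstance] at hz
          obtain ⟨j, hj, rfl⟩ := hz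
          exact esa_c_om he (hrl b hb) (Ord_om.trans hm hj)
        · exact hn
      obtain ⟨k, hk, hk'⟩ := crd_bdd hf1 hs1
      refine ⟨k, hk, fun y hy hyk => ?_⟩
      obtain ⟨j, hj, rfl⟩ := esa_mem_al.1 hy
      rw [mem_diff, mem_bun]
      refine ⟨Or.inl (esa_c_om he (hrl b hb) hj), fun hyS => hyk (hk' _ ?_)⟩
      rcases esa_mem_S.1 hyS with h | ⟨j', v, hj', hv, h, h2⟩
      · exact mem_ins.2 (Or.inr h)
      · refine mem_ins.2 (Or.inl ((mem_img' inferInstance).2 ⟨j, ?_, rfl⟩))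
        have h3 := he.2 _ _ (mem_prod.2 ⟨hj, esa_app_om (hrl b hb) hj⟩) (mem_prod.2 ⟨hj', hv⟩) h2
        rw [← h3] at h
        by_contra hjm
        exact hm' j hj (((Ord_nat hj).not_mem_iff (Ord_nat hm)).1 hjm) h
    · intro x
      rw [mem_diff, mem_bun]
      exact Iff.rfl
    · intro x hx
      refine ⟨sing x, esa_sing_open (hSom x hx) hBn, mem_sing.2 rfl, fun y hy _ => mem_sing.1 hy⟩
  · intro s' hs'
    rw [esa_pin, opair_mem_gr inferInstance] at hs'
    exact hs'.2
  · rintro x (hx | hx)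
    · obtain ⟨U, hU, hU'⟩ := (hCn x hx).2.2 x (Or.inl hx)
      refine ⟨x, esa_S e P x, app C x, U, hx, ?_, esa_pin.2 (hCn x hx).1, hU, hU', x, hU',
        esa_mem_S.2 (Or.inl rfl)⟩
      rw [esa_pin, opair_mem_gr inferInstance]
      exact ⟨hx, rfl⟩
    · obtain ⟨b, hb, rfl⟩ := hBb x hx
      obtain ⟨n, j, hn, hj, h1, h2⟩ := (hP b hb).2
      obtain ⟨hk, U, hU, hU', hU2⟩ := hFQ b n hb hn (hQ b n hb hn hx)
      refine ⟨n, esa_S e P n, app C n, U, hn, ?_, esa_pin.2 (hCn n hn).1, hU, hU',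
        esa_c e (app A b) j, hU2 j hj ((Ord_nat hj).sub_of_mem h1), ?_⟩
      · rw [esa_pin, opair_mem_gr inferInstance]
        exact ⟨hn, rfl⟩
      · exact esa_mem_S.2 (Or.inr ⟨j, app (app A b) j, hj, esa_app_om (hrl b hb) hj, h2, rfl⟩)

end SW.DV
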