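import Pool.Agent.H35.DV.Stmts

/-!
Module EXH: height above a given ordinal.
-/

set_option linter.unusedVariables false
set_option synthInstance.maxSize 100000

namespace SW.DV

/-- some function from `om` to `om` -/
theorem exh_fo {M : Type} [SetStr M] [ZF M] : Fo (gr om (fun n : M => n)) := by
  refine ⟨fun z hz => ?_, fun n hn => ⟨n, ?_⟩, fun n m m' h h' => ?_⟩
  · rw [mem_gr' inferInstance] at hz
    obtain ⟨n, hn, rfl⟩ := hz
    exact ⟨n, n, hn, hn, rfl⟩
  · rw [opair_mem_gr inferInstance]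
    exact ⟨hn, rfl⟩
  · rw [opair_mem_gr inferInstance] at h h'
    rw [h.2, h'.2]

theorem dv_exh (hcv : CVXStmt) (hwf : WFStmt) (hgrl : GRLStmt) (hext : EXTStmt) : EXHStmt := by
  intro M _ _ w Z I p c hns hp hc
  have hI := hns.emp
  have hb := hns.bs
  have cv := hcv M w Z I hb hI
  have wf := hwf M w hb.w1
  have key : ∀ c : M, E c w → ∀ p : M, E p (PQ w Z I) →
      ∃ q a : M, Cnd w Z I a q ∧ Sub p q ∧ E c a := by
    refine mem_induction (C := fun c : M => E c w → ∀ p : M, E p (PQ w Z I) →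
      ∃ q a : M, Cnd w Z I a q ∧ Sub p q ∧ E c a) inferInstance ?_
    intro c ih hc p hp
    obtain ⟨f, hf1, hf2⟩ := hb.w1.2.2 c hc
    obtain ⟨q, T, hq, hpq, hT1, hT2, _⟩ := hgrl M w Z I p
      (fun k q => ∀ b, E b c → E (opair b k) f → ∃ x, Et q emp b x) hns hp inferInstance (by
        intro k hk
        refine ⟨fun p hp => ?_, fun q q' hq hq' hs h b hb hbk => ?_⟩
        · by_cases h : ∃ b, E b c ∧ E (opair b k) f
          · obtain ⟨b, hb', hbk⟩ := h
            obtain ⟨q, a, hq, hpq, hba⟩ := ih b hb' (hb.w1.1.trans hc hb') p hp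
            refine ⟨q, mem_PQ.2 ⟨a, hq⟩, hpq, fun b' hb'' hbk' => ?_⟩
            rw [hf2 b' b k hb'' hb' hk hbk' hbk]
            obtain ⟨f', c', S', hr, _⟩ := cv.row hq hba
            exact ⟨_, hr⟩
          · exact ⟨p, hp, Sub.refl p, fun b hb' hbk => absurd ⟨b, hb', hbk⟩ h⟩
        · obtain ⟨x, hx⟩ := h b hb hbk
          exact ⟨x, hs _ hx⟩)
    obtain ⟨a, ha⟩ := mem_PQ.1 hq
    obtain ⟨q', f', S', hq', hqq, _⟩ := hext M w Z I a q _ hb hI ha exh_fo
    refine ⟨q', suc a, hq', hpq.trans hqq, ?_⟩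
    have hco := wf.ord hc
    have hao := (cv.ht ha).2
    rw [mem_suc]
    refine (hco.sub_iff hao).1 fun b hb' => ?_
    obtain ⟨k, hk, hbk⟩ := hf1 b hb'
    obtain ⟨t, r', ht, _⟩ := hT2 k q hk hq (Sub.refl q)
    obtain ⟨_, hD, hls⟩ := (hT1 k hk).2 t ht
    obtain ⟨x, hx⟩ := hD b hb' hbk
    exact cv.rowb ha (hls.2 b x hx)
  exact key c hc p hp

end SW.DV
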