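import Pool.Agent.H35.DV.Stmts

/-!
Module EXT: one more row.
-/

set_option linter.unusedVariables false
set_option synthInstance.maxSize 100000

namespace SW.DV

theorem dv_ext (hcv : CVXStmt) (hcbt : CBTStmt) (hrox : ROXStmt) (hadr : ADRStmt)
    (hclx : CLXStmt) : EXTStmt := by
  intro M _ _ w Z I a p c hb hI hp hc
  have cv := hcv M w Z I hb hI
  have cb := hcbt M
  have cl := hclx M
  have hpc : Cb p := hp.2.1.1
  -- the row functions
  obtain ⟨A, hAc, hA⟩ : ∃ A, Cb A ∧ ∀ f, E f A ↔ ∃ b c' S', Rw p b f c' S' := by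
    refine ⟨sep (img p (fun z => fs (sn (sn z)))) (fun f => ∃ b c' S', Rw p b f c' S'),
      cb.sub (cb.img _ inferInstance hpc) fun z hz => ((mem_sep' inferInstance).1 hz).1,
      fun f => ?_⟩
    rw [mem_sep' inferInstance, mem_img' inferInstance]
    refine ⟨fun h => h.2, fun h => ⟨?_, h⟩⟩
    obtain ⟨b, c', S', h⟩ := h
    refine ⟨_, h, ?_⟩
    simp only [sn_op, fs_op]
  -- the sets of the rows
  obtain ⟨B0, hB0c, hB0⟩ : ∃ A, Cb A ∧ ∀ S', E S' A ↔ ∃ b f c', Rw p b f c' S' := by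
    refine ⟨sep (img p (fun z => sn (sn (sn (sn z))))) (fun S' => ∃ b f c', Rw p b f c' S'),
      cb.sub (cb.img _ inferInstance hpc) fun z hz => ((mem_sep' inferInstance).1 hz).1,
      fun f => ?_⟩
    rw [mem_sep' inferInstance, mem_img' inferInstance]
    refine ⟨fun h => h.2, fun h => ⟨?_, h⟩⟩
    obtain ⟨b, f', c', h⟩ := h
    refine ⟨_, h, ?_⟩
    simp only [sn_op]
  -- the columns
  obtain ⟨B, hBc, hB1, hB2⟩ : ∃ B, Cb B ∧ (∀ s, E s B → ∃ K n, E K I ∧ E n om ∧ s = col p K n) ∧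
      ∀ K n, E K I → E n om → col p K n ≠ emp → E (col p K n) B := by
    refine ⟨sep (img (prod p om) (fun y => col p (fs (fs y)) (sn y)))
      (fun s => ∃ K n, E K I ∧ E n om ∧ s = col p K n),
      cb.sub (cb.img _ inferInstance (cb.prod hpc cb.om)) fun z hz =>
        ((mem_sep' inferInstance).1 hz).1, fun s hs => ((mem_sep' inferInstance).1 hs).2,
      fun K n hK hn hne => ?_⟩
    rw [mem_sep' inferInstance, mem_img' inferInstance]
    refine ⟨?_, K, n, hK, hn, rfl⟩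
    obtain ⟨z, hz⟩ : ∃ z, E z (col p K n) := by
      by_contra h
      exact hne (eq_emp fun z hz => h ⟨z, hz⟩)
    refine ⟨opair (opair K (opair n z)) n, mem_prod.2 ⟨(mem_col.1 hz).2, hn⟩, ?_⟩
    simp only [fs_op, sn_op]
  have hCL : ∀ s, E s (bun (sUn B0) B) → CL s := by
    intro s hs
    rcases mem_bun.1 hs with hs | hs
    · rw [mem_sUn] at hs
      obtain ⟨S', hS', hs⟩ := hs
      obtain ⟨b, f, c', hr⟩ := (hB0 S').1 hS'
      exact (cv.rowl hp hr).2.2.2 s hs
    · obtain ⟨K, n, hK, hn, rfl⟩ := hB1 s hs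
      exact (hp.2.2.2 K hK).2.1 n hn
  have hBB : Cb (bun (sUn B0) B) := by
    refine cb.bun (cb.sUn hB0c fun S' hS' => ?_) hBc
    obtain ⟨b, f, c', hr⟩ := (hB0 S').1 hS'
    exact (cv.rowl hp hr).2.2.1
  obtain ⟨f, hf, hfA, hfB⟩ := hrox M A (bun (sUn B0) B) hAc hBB (fun f hf => by
    obtain ⟨b, c', S', hr⟩ := (hA f).1 hf
    exact (cv.rowl hp hr).1) hCL
  have hcnd := hadr M w Z I a p f c B hb hI hp hf hc hBc
    (fun s hs => hCL s (mem_bun.2 (Or.inr hs)))
    (fun b f' c' S' hr => ⟨hfA f' ((hA f').2 ⟨b, c', S', hr⟩), fun s hs =>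
      hfB s (mem_bun.2 (Or.inl (by
        rw [mem_sUn]; exact ⟨S', (hB0 S').2 ⟨b, f', c', hr⟩, hs⟩)))⟩)
    (fun K n hK hn => by
      by_cases h : col p K n = emp
      · rw [h]; exact cl.gemp
      · exact hfB _ (mem_bun.2 (Or.inr (hB2 K n hK hn h))))
  have hE : ∀ K n z, E K I → (Et (ins (opair emp (opair a (opair f (opair c B)))) p) K n z ↔
      Et p K n z) := by
    intro K n z hK
    unfold Et
    rw [mem_ins, opair_inj]
    constructor
    · rintro (h | ⟨rfl, _⟩)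
      · exact h
      · exact absurd hK hI
    · exact Or.inl
  have hcol : ∀ K n, E K I → col (ins (opair emp (opair a (opair f (opair c B)))) p) K n =
      col p K n := by
    intro K n hK
    refine SW.ext fun z => ?_
    rw [mem_col, mem_col, hE K n z hK]
  refine ⟨_, f, B, hcnd, fun z hz => mem_ins.2 (Or.inl hz), mem_ins.2 (Or.inr rfl),
    fun K n hK hn => ?_, hE⟩
  rw [hcol K n hK]
  by_cases h : col p K n = emp
  · exact Or.inl h
  · exact Or.inr ⟨a, f, c, B, mem_ins.2 (Or.inr rfl), hB2 K n hK hn h⟩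

end SW.DV
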