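import Pool.Agent.H35.DV.Stmts

/-!
Module FCV: finite covering of sequences.
-/

set_option linter.unusedVariables false
set_option synthInstance.maxSize 100000

namespace SW.DV

/-- the third variable assigns members of the second to the members of the first -/
def QFcv (N : Type) [SetStr N] (v : Fin 3 → N) : Prop :=
  ∀ n, E n (v 0) → ∃ y, E y (v 1) ∧ PairIn n y (v 2)

instance QFcv_i : UDf QFcv := by unfold QFcv PairIn IsOP; infer_instance

theorem dv_fcv (hacf : ACFStmt) (hgrl : GRLStmt) : FCVStmt := by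
  intro M _ _ _ w Z I G hns hG _ X f hf
  obtain ⟨f, rfl⟩ := Quot.exists_rep f
  change ∀ n, E n om → ∃ y, E y X ∧ E (opair (emb (PG w Z I) G n) (emb (PG w Z I) G y))
    (mk (PG w Z I) G f) at hf
  change ∃ T : M, ∀ n, E n om → Fnt (app T n) ∧ Sub (app T n) X ∧
    ∃ y, E y (app T n) ∧ E (opair (emb (PG w Z I) G n) (emb (PG w Z I) G y))
      (mk (PG w Z I) G f)
  have hs : FSFacts (PG w Z I) := semF (PG w Z I)
  have ef := embF hG
  have tf := traF hG
  have gf := genF hG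
  have h3 : QFcv (Ext (PG w Z I) G)
      (fun i => mk (PG w Z I) G (![chk (PG w Z I) om, chk (PG w Z I) X, f] i)) := by
    intro n' hn'
    obtain ⟨n, hn, rfl⟩ := ef.trans n' om hn'
    obtain ⟨y, hy, h⟩ := hf n hn
    exact ⟨emb (PG w Z I) G y, (ef.mem _ _).2 hy, pairIn_iff.2 h⟩
  obtain ⟨p0, hp0, hp⟩ := (hs.truth QFcv G hG ![chk (PG w Z I) om, chk (PG w Z I) X, f]).1 h3
  have hp0P : E p0 (PQ w Z I) := hG.sub p0 hp0
  have hFP := FP_df (PG w Z I) hs
  have hFPi : ∀ {n : ℕ} {t s u : (Fin n → M) → M} [DfT t] [DfT s] [DfT u],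
      Df (fun v => FP (PG w Z I) (t v) (chk (PG w Z I) (s v)) (chk (PG w Z I) (u v)) f) :=
    fun {n t s u} _ _ _ =>
    Df.comp4 (R := fun q z c a => FP (PG w Z I) q z c a) hFP inferInstance inferInstance
      inferInstance inferInstance
  have hRi : Cl3 (fun k q y : M => FP (PG w Z I) q (chk (PG w Z I) k) (chk (PG w Z I) y) f) :=
    hFPi (t := fun v : Fin 3 → M => v 1) (s := fun v => v 0) (u := fun v => v 2)
  obtain ⟨R, hR, hRd⟩ : ∃ R : M → M → M → Prop, Cl3 R ∧ ∀ k q y, R k q y ↔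
      FP (PG w Z I) q (chk (PG w Z I) k) (chk (PG w Z I) y) f :=
    ⟨_, hRi, fun k q y => Iff.rfl⟩
  have hRdf : ∀ {n : ℕ} {t s u : (Fin n → M) → M} [DfT t] [DfT s] [DfT u],
      Df (fun v => R (t v) (s v) (u v)) := fun {n t s u} ht hs hu => hR.comp3 ht hs hu
  obtain ⟨D, hD, hDd⟩ : ∃ D : M → M → Prop, Cl2 D ∧ ∀ k q, D k q ↔
      (¬ Cpt (PQ w Z I) q p0 ∨ (Sub p0 q ∧ ∃ y, E y X ∧ R k q y)) :=
    ⟨fun k q => ¬ Cpt (PQ w Z I) q p0 ∨ (Sub p0 q ∧ ∃ y, E y X ∧ R k q y), by infer_instance,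
      fun k q => Iff.rfl⟩
  have hRmono : ∀ {k q q' y}, R k q y → E q (PQ w Z I) → Sub q q' → R k q' y := by
    intro k q q' y h1 h2 h3
    rw [hRd] at h1 ⊢
    exact h1.mono h2 h3
  have hO : Odn w Z I D := by
    intro k hk
    refine ⟨fun p hpP => ?_, fun q q' hq hq' hqq h => ?_⟩
    · by_cases hc : Cpt (PQ w Z I) p p0
      · obtain ⟨r, hr, hpr, hp0r⟩ := hc
        obtain ⟨G', hG', hrG'⟩ := hs.ex r hr
        have ef' := embF hG'
        have hzf : ZF (Ext (PG w Z I) G') := zfX hG'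
        have h4 := hG'.up r p0 hrG' hp0P hp0r
        have h5 : QFcv (Ext (PG w Z I) G')
          (fun i => mk (PG w Z I) G' (![chk (PG w Z I) om, chk (PG w Z I) X, f] i)) :=
          hp G' hG' h4
        obtain ⟨y', hy, hy'⟩ := h5 (emb (PG w Z I) G' k) ((ef'.mem _ _).2 hk)
        obtain ⟨y, hy1, rfl⟩ := ef'.trans y' X hy
        obtain ⟨p1, hp1, h6⟩ := FP.truth hG' hs hy'
        obtain ⟨q, hq, h7, h8⟩ := hG'.dir r p1 hrG' hp1
        refine ⟨q, hG'.sub q hq, hpr.trans h7, (hDd _ _).2 (Or.inr ⟨hp0r.trans h7, y, hy1, ?_⟩)⟩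
        rw [hRd]
        exact h6.mono (hG'.sub p1 hp1) h8
      · exact ⟨p, hpP, Sub.refl p, (hDd _ _).2 (Or.inl hc)⟩
    · rw [hDd] at h ⊢
      rcases h with h | ⟨h1, y, hy, h2⟩
      · refine Or.inl fun hc => h ?_
        obtain ⟨r, hr, h1, h2⟩ := hc
        exact ⟨r, hr, hqq.trans h1, h2⟩
      · exact Or.inr ⟨h1.trans hqq, y, hy, hRmono h2 hq hqq⟩
  obtain ⟨q, hq, T, hT⟩ := gf.meetC (fun q => ∃ T, ∀ k, E k om → (Fnt (app T k) ∧
      ∀ t, E t (app T k) → E t (PQ w Z I) ∧ D k t) ∧ ∀ r, E r (PQ w Z I) → Sub q r →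
      ∃ t r', E t (app T k) ∧ E r' (PQ w Z I) ∧ Sub r r' ∧ Sub t r') inferInstance (by
    intro p hpP
    obtain ⟨q, T, hq, hpq, h1, h2, _⟩ := hgrl M w Z I p D hns hpP hD hO
    refine ⟨q, hq, hpq, T, fun k hk => ⟨⟨(h1 k hk).1, fun t ht => ?_⟩, fun r hr hqr =>
      h2 k r hk hr hqr⟩⟩
    have := (h1 k hk).2 t ht
    exact ⟨this.1, this.2.1⟩)
  obtain ⟨ch, hch⟩ := hacf M X
  refine ⟨gr om (fun k => img (sep (app T k) (fun t => ∃ y, E y X ∧ R k t y))
    (fun t => app ch (sep X (fun y => R k t y)))), fun k hk => ?_⟩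
  rw [app_gr inferInstance hk]
  have hval : ∀ t, (∃ y, E y X ∧ R k t y) → E (app ch (sep X (fun y => R k t y))) X ∧
      R k t (app ch (sep X (fun y => R k t y))) := by
    rintro t ⟨y, hy, h⟩
    have := hch (sep X (fun y => R k t y)) (fun z hz => ((mem_sep' inferInstance).1 hz).1)
      ⟨y, (mem_sep' inferInstance).2 ⟨hy, h⟩⟩
    rw [mem_sep' inferInstance] at this
    exact this
  refine ⟨finF.img _ inferInstance (finF.sub (hT k hk).1.1 fun t ht =>
    ((mem_sep' inferInstance).1 ht).1), fun z hz => ?_, ?_⟩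
  · rw [mem_img' inferInstance] at hz
    obtain ⟨t, ht, rfl⟩ := hz
    rw [mem_sep' inferInstance] at ht
    exact (hval t ht.2).1
  · -- some member of `T k` is in `G`
    obtain ⟨r, hr, _, t, ht, htr⟩ := gf.meetB (fun r => ∃ t, E t (app T k) ∧ Sub t r)
      inferInstance q hq (by
        intro r hr hqr
        obtain ⟨t, r', ht, hr', h1, h2⟩ := (hT k hk).2 r hr hqr
        exact ⟨r', hr', h1, t, ht, h2⟩)
    obtain ⟨htP, htD⟩ := (hT k hk).1.2 t ht
    have htG : G t := hG.up r t hr htP htr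
    rcases (hDd _ _).1 htD with h | ⟨_, h⟩
    · obtain ⟨s, hs', h1, h2⟩ := hG.dir t p0 htG hp0
      exact absurd ⟨s, hG.sub s hs', h1, h2⟩ h
    · have h1 := hval t h
      refine ⟨_, (mem_img' inferInstance).2 ⟨t, (mem_sep' inferInstance).2 ⟨ht, h⟩, rfl⟩, ?_⟩
      have h2 := h1.2
      rw [hRd] at h2
      exact pairIn_iff.1 (h2.pair hG htG)

end SW.DV
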