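import Pool.Agent.H83.DV.BCK

/-!
Module FSE: one step of the fusion.
-/

set_option linter.unusedVariables false
set_option synthInstance.maxSize 100000

namespace SW.DV

theorem fse_emp_om {M : Type} [SetStr M] [ZF M] : (emp : M) ≠ om := by
  intro h
  have h1 : E (emp : M) om := emp_mem_om
  rw [← h] at h1
  exact not_mem_emp _ h1

theorem dv_fse (hcv : CVXStmt) (hmdx : MDXStmt) (hmdf : MDFStmt) (hone : ONEStmt)
    (htre : TREStmt) : FSEStmt := by
  intro M _ _ w Z I D hns hD hO x t hx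
  have hI := hns.emp
  have hb := hns.bs
  have cv := hcv M w Z I hb hI
  have md' := hmdx M w Z I hb hI
  obtain ⟨k, p, e, hk, hp, he, rfl⟩ := hx
  obtain ⟨q, hq, hpq, hsm, hDq⟩ := hone M w Z I p e (fun z => D k z) hb hI inferInstance
    (hO k hk).1 (hO k hk).2 hp he
  have hmono : ∀ q q' s, Sub q q' → Sub (md q e s) (md q' e s) := by
    intro q q' s hs z hz
    rw [bck_mem_md] at hz ⊢
    rcases hz with ⟨h1, h2⟩ | h
    · refine Or.inl ⟨hs z h1, fun h3 => h2 ?_⟩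
      rw [bck_mem_At] at h3 ⊢
      exact ⟨h1, h3.2⟩
    · exact Or.inr h
  have hmdq : ∀ q s, E q (PQ w Z I) → Dc e s → E (md q e s) (PQ w Z I) := by
    intro q s hq hs
    obtain ⟨a, ha⟩ := mem_PQ.1 hq
    exact mem_PQ.2 ⟨a, hmdf M w Z I a q e s hb hI ha he (md'.dl hs)⟩
  by_cases h1 : ∃ K b, t = opair emp (opair K b) ∧ E K I ∧ ∃ y, Et q emp b y
  · obtain ⟨K, b, rfl, hK, y, hy⟩ := h1
    obtain ⟨a, ha⟩ := mem_PQ.1 hq
    obtain ⟨q', hq', hqq, hsm', hT⟩ := htre M w Z I a q e K b hns hK ha (cv.rowb ha hy) he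
    refine ⟨opair (suc k) (opair q' e), ⟨_, _, _, suc_mem_om hk, hq', he, rfl⟩,
      ⟨k, p, e, q', e, rfl, rfl, hpq.trans hqq, fun K n j v hx => (hsm' K n j v hx).trans
        (hsm K n j v hx), Sub.refl e, fun s hs => ?_⟩, fun k' p' e' h => ⟨fun K' b' h' _ _ => ?_,
        fun K' n m h' => ?_⟩⟩
    · exact (hO k hk).2 _ _ (hmdq q s hq hs) (hmdq q' s hq' hs) (hmono _ _ _ hqq) (hDq s hs)
    · simp only [opair_inj] at h h'
      obtain ⟨_, rfl, rfl⟩ := h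
      obtain ⟨_, rfl, rfl⟩ := h'
      exact hT
    · rw [opair_inj] at h'
      exact absurd h'.1 fse_emp_om
  by_cases h2 : ∃ K n m, t = opair om (opair K (opair n m)) ∧ E K I ∧ E n om ∧ E m om
  · obtain ⟨K, n, m, rfl, hK, hn, hm⟩ := h2
    obtain ⟨a, ha⟩ := mem_PQ.1 hq
    obtain ⟨j, hj, hmj, hc⟩ := ((ha.2.2.2 K hK).2.1 n hn).2.2 m hm
    have he' : Eps I (ins (opair K (opair n m)) (ins (opair K (opair n j)) e)) := by
      refine ⟨finF.ins (finF.ins he.1), fun x hx => ?_⟩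
      rcases mem_ins.1 hx with hx | rfl
      · rcases mem_ins.1 hx with hx | rfl
        · exact he.2 x hx
        · exact ⟨K, n, j, hK, hn, hj, rfl⟩
      · exact ⟨K, n, m, hK, hn, hm, rfl⟩
    refine ⟨opair (suc k) (opair q (ins (opair K (opair n m)) (ins (opair K (opair n j)) e))),
      ⟨_, _, _, suc_mem_om hk, hq, he', rfl⟩,
      ⟨k, p, e, q, _, rfl, rfl, hpq, hsm, fun z hz => mem_ins.2 (Or.inl (mem_ins.2 (Or.inl hz))),
        hDq⟩, fun k' p' e1 h => ⟨fun K' b' h' _ _ => ?_, fun K' n' m' h' _ _ _ => ?_⟩⟩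
    · rw [opair_inj] at h'
      exact absurd h'.1.symm fse_emp_om
    · simp only [opair_inj] at h h'
      obtain ⟨_, rfl, rfl⟩ := h
      obtain ⟨_, rfl, rfl, rfl⟩ := h'
      exact ⟨mem_ins.2 (Or.inr rfl), j, hj, hmj, mem_ins.2 (Or.inl (mem_ins.2 (Or.inr rfl))), hc⟩
  · refine ⟨opair (suc k) (opair q e), ⟨_, _, _, suc_mem_om hk, hq, he, rfl⟩,
      ⟨k, p, e, q, e, rfl, rfl, hpq, hsm, Sub.refl e, hDq⟩,
      fun k' p' e' h => ⟨fun K' b' h' h3 h4 => ?_, fun K' n m h' h3 h4 h5 => ?_⟩⟩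
    · simp only [opair_inj] at h
      obtain ⟨_, rfl, rfl⟩ := h
      exact absurd ⟨K', b', h', h3, h4⟩ h1
    · exact absurd ⟨K', n, m, h', h3, h4, h5⟩ h2

end SW.DV
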