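import Pool.Agent.H35.DV.Stmts
import Pool.Agent.H2.CT.HFX

/-!
Module HVX: facts about `H`.
-/

set_option linter.unusedVariables false
set_option synthInstance.maxSize 100000

namespace SW.DV

theorem dv_hvx (hz : ZFXStmt) (hzvx : ZVXStmt) (hhf : HFXStmt) : HVXStmt := by
  intro M _ _ w Z H hb hH hcl
  have zf := hz M w Z hb
  have zv := hzvx M w Z hb
  have hf := hhf M w Z H hb hH hcl
  have hcb' : ∀ a, Sub a H → Cb a → E a H := fun a h1 h2 => hcl a h1 (hfx_img zf.omZ h2)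
  have hcond : ∀ {I p : M}, Sub I H → E p (PQ w Z I) → E p H := by
    intro I p hI hp
    obtain ⟨a, ha⟩ := mem_PQ.1 hp
    refine hcb' p (fun z hz => ?_) ha.2.1.1
    obtain ⟨K, b, x, hK, hbw, hx, rfl⟩ := ha.2.1.2 z hz
    refine hf.opH ?_ (hf.opH (hf.ZH _ (zf.wZ _ hbw)) (hf.ZH _ hx))
    rcases hK with rfl | hK
    · exact hf.ZH _ zf.eZ
    · exact hI _ hK
  refine ⟨hcond, ?_⟩
  intro I e hI hi h
  refine hcl e (fun t ht => ?_) hi
  obtain ⟨u, q, hu, hq, rfl⟩ := h t ht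
  refine hf.opH (hf.ZH _ ?_) (hcond hI hq)
  obtain ⟨b, g, hb', hg, rfl⟩ := mem_UN.1 hu
  exact zf.opZ (zf.wZ _ hb') (zv.cof hg).2

end SW.DV
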