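import Pool.Agent.H83.DV.CRD

/-!
Module LIM: the union of a fusion sequence is a condition.
-/

set_option linter.unusedVariables false
set_option synthInstance.maxSize 100000

namespace SW.DV

section
variable {M : Type} [SetStr M] [ZF M]

theorem lim_mono {P Q : M} (h : ∀ n, E n om → Sub (app P n) (app P (suc n)) ∧
      Sm (app Q n) (app P n) (app P (suc n)) ∧ Sub (app Q n) (app Q (suc n))) :
    ∀ m, E m om → ∀ n, E n (suc m) → Sub (app P n) (app P m) ∧
      Sm (app Q n) (app P n) (app P m) ∧ Sub (app Q n) (app Q m) := by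
  refine om_ind (C := fun m : M => ∀ n : M, E n (suc m) → Sub (app P n) (app P m) ∧
      Sm (app Q n) (app P n) (app P m) ∧ Sub (app Q n) (app Q m)) inferInstance ?_ ?_
  · intro n hn
    rcases mem_suc.1 hn with hn | rfl
    · exact absurd hn (not_mem_emp n)
    · exact ⟨Sub.refl _, fun K n j v _ => Iff.rfl, Sub.refl _⟩
  · intro m hm ih n hn
    rcases mem_suc.1 hn with hn | rfl
    · obtain ⟨h1, h2, h3⟩ := ih n hn
      obtain ⟨h4, h5, h6⟩ := h m hm
      exact ⟨h1.trans h4, fun K i j v hx => (h5 K i j v (h3 _ hx)).trans (h2 K i j v hx),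
        h3.trans h6⟩
    · exact ⟨Sub.refl _, fun K n j v _ => Iff.rfl, Sub.refl _⟩

theorem lim_max {P Q : M} (h : ∀ n, E n om → Sub (app P n) (app P (suc n)) ∧
      Sm (app Q n) (app P n) (app P (suc n)) ∧ Sub (app Q n) (app Q (suc n))) {n m : M}
    (hn : E n om) (hm : E m om) : ∃ k, E k om ∧ Sub (app P n) (app P k) ∧
      Sub (app P m) (app P k) ∧ Sm (app Q n) (app P n) (app P k) := by
  obtain ⟨h1, h2, h3⟩ := crd_max hn hm
  have h4 : ∀ x, E x om → Sub x (bun n m) → E x (suc (bun n m)) := fun x hx h => by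
    rw [mem_suc]
    exact ((Ord_nat hx).sub_iff (Ord_nat h1)).1 h
  have h5 := lim_mono h _ h1 n (h4 n hn h2)
  have h6 := lim_mono h _ h1 m (h4 m hm h3)
  exact ⟨_, h1, h5.1, h6.1, h5.2.1⟩

end

theorem dv_lim (hcv : CVXStmt) (hcbt : CBTStmt) (hwf : WFStmt) (htmo : TMOStmt) : LIMStmt := by
  intro M _ _ w Z I P Q hb hI h hT hB
  have cv := hcv M w Z I hb hI
  have cb := hcbt M
  have wf := hwf M w hb.w1
  have hst : ∀ n, E n om → Sub (app P n) (app P (suc n)) ∧
      Sm (app Q n) (app P n) (app P (suc n)) ∧ Sub (app Q n) (app Q (suc n)) :=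
    fun n hn => (h n hn).2.2
  have hcnd : ∀ n, E n om → ∃ a, Cnd w Z I a (app P n) := fun n hn => mem_PQ.1 (h n hn).1
  have hU : ∀ K b x, Et (uq P) K b x ↔ ∃ n, E n om ∧ Et (app P n) K b x := fun K b x => mem_uq
  have hsubU : ∀ n, E n om → Sub (app P n) (uq P) := fun n hn z hz => mem_uq.2 ⟨n, hn, hz⟩
  have hsmU : ∀ n, E n om → Sm (app Q n) (app P n) (uq P) := by
    intro n hn K i j v hx
    constructor
    · intro h1
      obtain ⟨m, hm, h1⟩ := (hU K i (opair j v)).1 h1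
      obtain ⟨k, hk, h2, h3, h4⟩ := lim_max hst hn hm
      exact (h4 K i j v hx).1 (h3 _ h1)
    · intro h1
      exact hsubU n hn _ h1
  -- the height
  obtain ⟨a, ha, haU⟩ : ∃ a, E a w ∧ ∀ b, E b a ↔ ∃ n x, E n om ∧ Et (app P n) emp b x := by
    obtain ⟨s, hs⟩ : ∃ s : M, ∀ b, E b s ↔ E b w ∧ ∃ n x, E n om ∧ Et (app P n) emp b x :=
      ⟨sep w (fun b => ∃ n x, E n om ∧ Et (app P n) emp b x), fun b => mem_sep' inferInstance⟩
    have hrow : ∀ n b a, E n om → Cnd w Z I a (app P n) → (E b a ↔ ∃ x, Et (app P n) emp b x) := by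
      intro n b a hn hc
      constructor
      · intro hb'
        obtain ⟨f, c, S, hr, _⟩ := cv.row hc hb'
        exact ⟨_, hr⟩
      · rintro ⟨x, hx⟩
        exact cv.rowb hc hx
    have hso : Ord s := by
      refine ⟨fun b hb' y hy => ?_, fun b hb' => ?_⟩
      · obtain ⟨hbw, n, x, hn, hx⟩ := (hs b).1 hb'
        obtain ⟨a, ha⟩ := hcnd n hn
        have h1 := (hrow n b a hn ha).2 ⟨x, hx⟩
        have h2 : E y a := (cv.ht ha).2.trans h1 hy
        obtain ⟨x', hx'⟩ := (hrow n y a hn ha).1 h2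
        exact (hs y).2 ⟨hb.w1.1.trans hbw hy, n, x', hn, hx'⟩
      · exact (wf.ord ((hs b).1 hb').1).1
    have hsc : Cb s := by
      have h1 : Sub s (sUn (img om (fun n : M => sep w (fun b => ∃ x, Et (app P n) emp b x)))) := by
        intro b hb'
        obtain ⟨hbw, n, x, hn, hx⟩ := (hs b).1 hb'
        rw [mem_sUn]
        refine ⟨_, (mem_img' inferInstance).2 ⟨n, hn, rfl⟩, ?_⟩
        rw [mem_sep' inferInstance]
        exact ⟨hbw, x, hx⟩
      refine cb.sub (cb.iUn _ inferInstance cb.om fun n hn => ?_) h1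
      obtain ⟨a, ha⟩ := hcnd n hn
      refine cb.sub (hb.w1.2.2 a (cv.ht ha).1) fun b hb' => ?_
      rw [mem_sep' inferInstance] at hb'
      exact (hrow n b a hn ha).2 hb'.2
    obtain ⟨c, hc, hc'⟩ := wf.bdd (s := s) (fun b hb' => ((hs b).1 hb').1) hsc
    have h2 : E s w := by
      rcases hso.tri (wf.ord hc) with h3 | h3 | h3
      · exact hb.w1.1.trans hc h3
      · rw [h3]; exact hc
      · exact absurd (hc' c h3) (not_mem_self c)
    refine ⟨s, h2, fun b => ?_⟩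
    rw [hs]
    refine ⟨fun h => h.2, fun h => ⟨?_, h⟩⟩
    obtain ⟨n, x, hn, hx⟩ := h
    obtain ⟨a, ha⟩ := hcnd n hn
    exact hb.w1.1.trans (cv.ht ha).1 (cv.rowb ha hx)
  -- two entries
  have h2e : ∀ K b x K' b' x', Et (uq P) K b x → Et (uq P) K' b' x' → ∃ n, E n om ∧
      Et (app P n) K b x ∧ Et (app P n) K' b' x' := by
    intro K b x K' b' x' h1 h2
    obtain ⟨n, hn, h1⟩ := (hU K b x).1 h1
    obtain ⟨m, hm, h2⟩ := (hU K' b' x').1 h2
    obtain ⟨k, hk, h3, h4, _⟩ := lim_max hst hn hm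
    exact ⟨k, hk, h3 _ h1, h4 _ h2⟩
  have hcol : ∀ K i j v, Ex (uq P) K i j v → ∃ n, E n om ∧ Ex (app P n) K i j v :=
    fun K i j v h1 => (hU K i (opair j v)).1 h1
  have hshape : ∀ K i z, E K I → Et (uq P) K i z → E i om ∧ ∃ j v, E j om ∧ E v (suc j) ∧
      z = opair j v := by
    intro K i z hK h1
    obtain ⟨n, hn, h1⟩ := (hU K i z).1 h1
    obtain ⟨a', ha'⟩ := hcnd n hn
    exact cv.ex ha' hK h1
  have hmcol : ∀ K i z, E K I → (E z (col (uq P) K i) ↔ Et (uq P) K i z) := by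
    intro K i z hK
    rw [mem_col]
    refine ⟨fun h => h.2, fun h => ⟨?_, h⟩⟩
    obtain ⟨_, j, v, hj, hv, rfl⟩ := hshape K i z hK h
    rw [mem_prod]
    exact ⟨hj, Ord_om.trans (suc_mem_om hj) hv⟩
  have hCLU : ∀ K, E K I → (∀ i j, E i om → E j om → Ll (col (uq P) K i) j) ∧
      ∀ i, E i om → CL (col (uq P) K i) := by
    intro K hK
    by_cases hc : ∃ n, E n om ∧ Col (app P n) K
    · obtain ⟨n, hn, hc⟩ := hc
      have hsame : ∀ l i j, E l om → E (opair K (opair i j)) (app Q l) → ∀ v,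
          (E (opair j v) (col (uq P) K i) ↔ E (opair j v) (col (app P l) K i)) := by
        intro l i j hl hx v
        obtain ⟨a', ha'⟩ := hcnd l hl
        rw [hmcol K i _ hK, cv.colx ha' hK]
        exact hsmU l hl K i j v hx
      have hLl : ∀ i j, E i om → E j om → Ll (col (uq P) K i) j := by
        intro i j hi hj
        obtain ⟨l, hl, hx, _⟩ := hB n K i j hn hK hc hi hj
        obtain ⟨a', ha'⟩ := hcnd l hl
        have h1 := (ha'.2.2.2 K hK).2.1 i hi
        have h2 := h1.2.1 j hj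
        unfold Ll at h2 ⊢
        simp only [hsame l i j hl hx]
        exact h2
      refine ⟨hLl, fun i hi => ⟨fun z hz => ?_, fun j hj => hLl i j hi hj, fun k hk => ?_⟩⟩
      · rw [hmcol K i _ hK] at hz
        exact (hshape K i z hK hz).2
      · obtain ⟨l, hl, _, j, hj, hkj, hx, hcd⟩ := hB n K i k hn hK hc hi hk
        refine ⟨j, hj, hkj, ?_⟩
        have h3 : Wn (col (uq P) K i) j = Wn (col (app P l) K i) j := SW.ext fun v => by
          rw [mem_Wn, mem_Wn, hsame l i j hl hx]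
        rw [h3]
        exact hcd
    · have h1 : ∀ i, col (uq P) K i = emp := by
        intro i
        refine eq_emp fun z hz => ?_
        rw [hmcol K i _ hK] at hz
        obtain ⟨n, hn, h1⟩ := (hU K i z).1 hz
        exact hc ⟨n, hn, i, z, h1⟩
      refine ⟨fun i j hi hj => ?_, fun i hi => ?_⟩
      · rw [h1]; exact CL_emp.2.1 j hj
      · rw [h1]; exact CL_emp
  have hfin : Cnd w Z I a (uq P) := by
    refine ⟨Or.inl ha, ⟨?_, fun z hz => ?_⟩, ⟨fun b x hx => ?_, fun b x x' hx hx' => ?_,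
      fun b hb' => ?_, fun b b' f c S f' c' S' hbb h1 h2 => ?_⟩, fun K hK => ⟨fun n z hz => ?_,
      (hCLU K hK).2, fun b f c S hr => ?_⟩⟩
    · refine cb.iUn _ inferInstance cb.om fun n hn => ?_
      obtain ⟨a', ha'⟩ := hcnd n hn
      exact ha'.2.1.1
    · obtain ⟨n, hn, hz⟩ := mem_uq.1 hz
      obtain ⟨a', ha'⟩ := hcnd n hn
      exact ha'.2.1.2 z hz
    · obtain ⟨n, hn, hx⟩ := (hU emp b x).1 hx
      obtain ⟨a', ha'⟩ := hcnd n hn
      exact ⟨(haU b).2 ⟨n, x, hn, hx⟩, (ha'.2.2.1.1 b x hx).2⟩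
    · obtain ⟨n, hn, h1, h2⟩ := h2e _ _ _ _ _ _ hx hx'
      obtain ⟨a', ha'⟩ := hcnd n hn
      exact ha'.2.2.1.2.1 b x x' h1 h2
    · obtain ⟨n, x, hn, hx⟩ := (haU b).1 hb'
      exact ⟨x, (hU _ _ _).2 ⟨n, hn, hx⟩⟩
    · obtain ⟨n, hn, h3, h4⟩ := h2e _ _ _ _ _ _ h1 h2
      obtain ⟨a', ha'⟩ := hcnd n hn
      exact ha'.2.2.1.2.2.2 b b' f c S f' c' S' hbb h3 h4
    · obtain ⟨n', hn', hz⟩ := (hU K n z).1 hz
      obtain ⟨a', ha'⟩ := hcnd n' hn'
      exact (ha'.2.2.2 K hK).1 n z hz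
    · by_cases hc : ∃ n, E n om ∧ Col (app P n) K
      · obtain ⟨n, hn, hc⟩ := hc
        obtain ⟨m, hm, hr'⟩ := (hU _ _ _).1 hr
        obtain ⟨k, hk, h1, h2, _⟩ := lim_max hst hn hm
        obtain ⟨i, y, hy⟩ := hc
        obtain ⟨l, hl, hTr⟩ := hT k K b hk hK ⟨i, y, h1 _ hy⟩ ⟨_, h2 _ hr'⟩
        obtain ⟨a', ha'⟩ := hcnd l hl
        exact Or.inl (htmo M w Z I a' (app P l) (uq P) K b hb hI ha' hK (hsubU l hl)
          (hCLU K hK).1 hTr)
      · have h1 : ∀ i, col (uq P) K i = emp := by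
          intro i
          refine eq_emp fun z hz => ?_
          rw [hmcol K i _ hK] at hz
          obtain ⟨n, hn, h1⟩ := (hU K i z).1 hz
          exact hc ⟨n, hn, i, z, h1⟩
        refine Or.inr fun n hn => ?_
        rw [h1]
        exact ⟨⟨emp, emp_mem_om, fun j _ _ h => absurd h (not_mem_emp _)⟩,
          fun m hm => ⟨m, hm, Sub.refl m, not_mem_emp _⟩⟩
  exact ⟨mem_PQ.2 ⟨a, hfin⟩, fun n hn => ⟨hsubU n hn, hsmU n hn⟩⟩

end SW.DV
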