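import Pool.Agent.H83.DV.CRD

/-!
Module MDF: finite modifications of conditions are conditions.
-/

set_option linter.unusedVariables false
set_option synthInstance.maxSize 100000

namespace SW.DV

/-- bounds for the positions in `e` -/
theorem mdf_bd {M : Type} [SetStr M] [ZF M] {I e : M} (he : Eps I e) :
    ∃ L, E L om ∧ ∀ K n j, E (opair K (opair n j)) e → E j L ∧ E n L := by
  obtain ⟨L1, hL1, hL1'⟩ := crd_bdd (x := img e (fun x => sn (sn x)))
    (finF.img _ inferInstance he.1) (by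
      intro z hz
      rw [mem_img' inferInstance] at hz
      obtain ⟨x, hx, rfl⟩ := hz
      obtain ⟨K', n, j, _, _, hj, rfl⟩ := he.2 x hx
      rw [sn_op, sn_op]
      exact hj)
  obtain ⟨L2, hL2, hL2'⟩ := crd_bdd (x := img e (fun x => fs (sn x)))
    (finF.img _ inferInstance he.1) (by
      intro z hz
      rw [mem_img' inferInstance] at hz
      obtain ⟨x, hx, rfl⟩ := hz
      obtain ⟨K', n, j, _, hn, _, rfl⟩ := he.2 x hx
      rw [sn_op, fs_op]
      exact hn)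
  obtain ⟨h1, h2, h3⟩ := crd_max hL1 hL2
  refine ⟨_, h1, fun K n j hx => ⟨h2 _ (hL1' j ((mem_img' inferInstance).2 ⟨_, hx, ?_⟩)),
    h3 _ (hL2' n ((mem_img' inferInstance).2 ⟨_, hx, ?_⟩))⟩⟩
  · rw [sn_op, sn_op]
  · rw [sn_op, fs_op]

theorem dv_mdf (hcv : CVXStmt) (hmdx : MDXStmt) (hclx : CLXStmt) (hlsx : LSXStmt)
    (hcbt : CBTStmt) (hwf : WFStmt) (hzvx : ZVXStmt) : MDFStmt := by
  intro M _ _ w Z I a p e s hb hI hp he hs
  have cv := hcv M w Z I hb hI
  have cb := hcbt M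
  have wf := hwf M w hb.w1
  have zv := hzvx M w Z hb
  have ls := hlsx M
  have cl := hclx M
  have md' := hmdx M w Z I hb hI
  obtain ⟨L, hL, hL'⟩ := mdf_bd he
  have hsf : Fnt s := finF.sub (md'.enf he) hs.1
  have hrow : ∀ b x, Et (md p e s) emp b x ↔ Et p emp b x := fun b x => md'.emp he hs.1
  have hmem : ∀ z, E z (md p e s) → E z p ∨ E z s := by
    intro z hz
    unfold md at hz
    rw [mem_bun, mem_diff] at hz
    exact hz.elim (fun h => Or.inl h.1) Or.inr
  have hsm : ∀ z, E z s → ∃ K n j v, E K I ∧ E n om ∧ E j om ∧ E v (suc j) ∧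
      z = opair K (opair n (opair j v)) := by
    intro z hz
    obtain ⟨K, n, j, v, hx, hv, rfl⟩ := (md'.mem he).1 (hs.1 z hz)
    obtain ⟨K', n', j', hK, hn, hj, h1⟩ := he.2 _ hx
    simp only [opair_inj] at h1
    obtain ⟨rfl, rfl, rfl⟩ := h1
    exact ⟨K, n, j, v, hK, hn, hj, hv, rfl⟩
  have hls : Ls (md p e s) p := (md'.ls hp he hs.1).1
  have hout : ∀ K n j v, E j om → Sub L j → (Ex (md p e s) K n j v ↔ Ex p K n j v) := by
    intro K n j v hj hLj
    refine md'.out he hs.1 fun hx => ?_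
    exact not_mem_self j (hLj j (hL' K n j hx).1)
  have hout' : ∀ K n j v, E n om → Sub L n → (Ex (md p e s) K n j v ↔ Ex p K n j v) := by
    intro K n j v hn hLn
    refine md'.out he hs.1 fun hx => ?_
    exact not_mem_self n (hLn n (hL' K n j hx).2)
  have hE1 : ∀ K n z, E K I → Et (md p e s) K n z → E n om ∧ ∃ j v, E j om ∧ E v (suc j) ∧
      z = opair j v := by
    intro K n z hK hz
    rcases hmem _ hz with h1 | h1
    · exact cv.ex hp hK h1
    · obtain ⟨K', n', j, v, hK', hn, hj, hv, h2⟩ := hsm _ h1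
      rw [opair_inj, opair_inj] at h2
      obtain ⟨rfl, rfl, rfl⟩ := h2
      exact ⟨hn, j, v, hj, hv, rfl⟩
  have hcolq : ∀ K n j v, E K I → (E (opair j v) (col (md p e s) K n) ↔
      Ex (md p e s) K n j v) := by
    intro K n j v hK
    rw [mem_col]
    refine ⟨fun h => h.2, fun h => ⟨?_, h⟩⟩
    obtain ⟨_, j', v', hj, hv, h1⟩ := hE1 K n _ hK h
    rw [opair_inj] at h1
    obtain ⟨rfl, rfl⟩ := h1
    rw [mem_prod]
    exact ⟨hj, Ord_om.trans (suc_mem_om hj) hv⟩
  have hcolp : ∀ K n j v, E K I → (E (opair j v) (col p K n) ↔ Ex p K n j v) :=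
    fun K n j v hK => cv.colx hp hK
  have hfar : ∀ K n, E K I → ∀ j v, E j om → Sub L j →
      (E (opair j v) (col (md p e s) K n) ↔ E (opair j v) (col p K n)) := by
    intro K n hK j v hj hLj
    rw [hcolq K n j v hK, hcolp K n j v hK]
    exact hout K n j v hj hLj
  refine ⟨hp.1, ⟨?_, fun z hz => ?_⟩, ⟨fun b x hx => ?_, fun b x x' hx hx' => ?_,
      fun b hb' => ?_, fun b b' f c S f' c' S' hbb h1 h2 => ?_⟩, fun K hK => ⟨fun n z hz => ?_,
      fun n hn => ?_, fun b f c S hr => ?_⟩⟩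
  · exact cb.sub (cb.bun hp.2.1.1 (cb.fin hsf)) fun z hz => mem_bun.2 (hmem z hz)
  · rcases hmem z hz with hz | hz
    · exact hp.2.1.2 z hz
    · obtain ⟨K, n, j, v, hK, hn, hj, hv, rfl⟩ := hsm z hz
      exact ⟨K, n, _, Or.inr hK, wf.om n hn, zv.pos hj (Ord_om.trans (suc_mem_om hj) hv), rfl⟩
  · rw [hrow] at hx
    exact hp.2.2.1.1 b x hx
  · rw [hrow] at hx hx'
    exact hp.2.2.1.2.1 b x x' hx hx'
  · obtain ⟨x, hx⟩ := hp.2.2.1.2.2.1 b hb'
    exact ⟨x, (hrow b x).2 hx⟩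
  · exact hp.2.2.1.2.2.2 b b' f c S f' c' S' hbb ((hrow _ _).1 h1) ((hrow _ _).1 h2)
  · obtain ⟨hn, j, v, hj, hv, rfl⟩ := hE1 K n z hK hz
    exact ⟨hn, mem_prod.2 ⟨hj, Ord_om.trans (suc_mem_om hj) hv⟩⟩
  · have hCLp := (hp.2.2.2 K hK).2.1 n hn
    refine cl.fin hCLp hL (fun z hz => ?_) (fun j hj => ?_) (hfar K n hK)
    · exact (hE1 K n z hK (mem_col.1 hz).2).2
    · have h1 := hCLp.2.1 j hj
      unfold Ll at h1 ⊢
      simp only [hcolq K n _ _ hK]
      simp only [hcolp K n _ _ hK] at h1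
      by_cases hx : E (opair K (opair n j)) e
      · simp only [md'.inn he hs.1 hx]
        exact hs.2 K n j hx
      · simp only [md'.out he hs.1 hx]
        exact h1
  · have hr' : Rw p b f c S := (hrow _ _).1 hr
    rcases (hp.2.2.2 K hK).2.2 b f c S hr' with hT | hG
    · obtain ⟨h, r, f', c', S', h1, h2, h3, h4, h5⟩ := hT
      refine Or.inl ⟨h, r, f', c', S', (hrow _ _).2 h1, h2, ls.trans hls h3, fun n hn => ?_,
        fun m hm => ?_⟩
      · obtain ⟨m, hm, hm'⟩ := h4 n hn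
        obtain ⟨h6, h7, h8⟩ := crd_max hm hL
        exact ⟨_, h6, fun j hj hmj => (hout K n j _ hj (h8.trans hmj)).2
          (hm' j hj (h7.trans hmj))⟩
      · obtain ⟨h6, h7, h8⟩ := crd_max hm hL
        obtain ⟨n, j, hn, hmn, hj, h9, h10, h11⟩ := h5 _ h6
        refine ⟨n, j, hn, h7.trans hmn, hj, h9, (hout' K n j _ hn (h8.trans hmn)).2 h10,
          fun h12 => h11 ((hout' K n j _ hn (h8.trans hmn)).1 h12)⟩
    · exact Or.inr fun n hn => cl.gfin (hG n hn) hL (hfar K n hK)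

end SW.DV
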