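import Pool.Agent.H35.DV.Stmts
import Pool.Agent.H24.CT.MSX

/-!
Module MSX: the largest system of total names.
-/

set_option linter.unusedVariables false
set_option synthInstance.maxSize 100000

namespace SW.DV

section
variable {M : Type} [SetStr M] [ZF M]

/-- the set of all systems of total names in `H` -/
noncomputable def msxS (w Z H : M) : M :=
  sep (pow H) (fun J => Syq w Z J ∧ ∀ K : M, E K J → Tot w Z J K)

theorem mem_msxS {w Z H J : M} : E J (msxS w Z H) ↔ Sub J H ∧ Syq w Z J ∧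
    ∀ K : M, E K J → Tot w Z J K := by
  unfold msxS
  rw [mem_sep' inferInstance, mem_pow]

end

theorem dv_msx (hB : BITStmt) (hD : DNUStmt) : MSXStmt := by
  intro M _ _ w hw
  obtain ⟨Z, tz, hZ⟩ := hB M (om : M) ⟨emp, mem_om.2 fun z hz => hz.1⟩
  have eZ : E (emp : M) Z := hZ emp (fun z hz => absurd hz (not_mem_emp z))
    ⟨emp, fun y hy => absurd hy (not_mem_emp y)⟩
  obtain ⟨H, th, hH⟩ := hB M Z ⟨emp, eZ⟩
  have bs : Bs w Z := ⟨hw, tz, fun a ha hc => hZ a ha (msx_img hc)⟩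
  set I : M := sUn (msxS w Z H) with hI
  have memI : ∀ {K : M}, E K I ↔ ∃ J, E J (msxS w Z H) ∧ E K J := by
    intro K; rw [hI, mem_sUn]
  have subI : ∀ {J : M}, E J (msxS w Z H) → Sub J I := fun hJ K hK => memI.2 ⟨_, hJ, hK⟩
  have hempI : ¬ E emp I := by
    intro h
    obtain ⟨J, hJ, h⟩ := memI.1 h
    exact (mem_msxS.1 hJ).2.1.1 h
  have hsys : Syq w Z I := by
    refine ⟨hempI, fun K hK => ?_⟩
    obtain ⟨J, hJ, h⟩ := memI.1 hK
    exact msx_sk (subI hJ) ((mem_msxS.1 hJ).2.1.2 K h)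
  have hdns : ∀ K, E K I → Tot w Z I K := by
    intro K hK
    obtain ⟨J, hJ, h⟩ := memI.1 hK
    have hJ' := mem_msxS.1 hJ
    exact hD M w Z I J K bs hempI (subI hJ) hJ'.2.1 (hJ'.2.2 K h)
  have hsub : Sub I H := by
    intro K hK
    obtain ⟨J, hJ, h⟩ := memI.1 hK
    exact (mem_msxS.1 hJ).1 K h
  have hw0 : ∃ b, E b w := by
    by_contra h
    refine hw.2.1 ⟨emp, fun y hy => absurd ⟨y, hy⟩ h, fun y y' n hy => absurd ⟨y, hy⟩ h⟩
  refine ⟨Z, H, I, ⟨⟨bs, hempI, hdns⟩, th, hH, hsub, hsys, ?_⟩⟩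
  intro K hKH hKS hKD
  have hKe : K ≠ emp := by
    rintro rfl
    obtain ⟨b, hb⟩ := hw0
    obtain ⟨q, h, r, _, _, h1, _⟩ := hKD emp b (emp_PQ w Z I) hb
    exact not_mem_emp _ h1
  have hIJ : Sub I (ins K I) := fun x hx => mem_ins.2 (Or.inl hx)
  have hJe : ¬ E emp (ins K I) := by
    rw [mem_ins]
    rintro (h | h)
    · exact hempI h
    · exact hKe h.symm
  have hJ : E (ins K I) (msxS w Z H) := by
    rw [mem_msxS]
    refine ⟨?_, ⟨hJe, ?_⟩, ?_⟩
    · intro x hx
      rw [mem_ins] at hx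
      rcases hx with hx | rfl
      · exact hsub x hx
      · exact hKH
    · intro x hx
      rw [mem_ins] at hx
      rcases hx with hx | rfl
      · exact msx_sk hIJ (hsys.2 x hx)
      · exact msx_sk hIJ hKS
    · intro x hx
      rw [mem_ins] at hx
      rcases hx with hx | rfl
      · exact hD M w Z (ins K I) I x bs hJe hIJ hsys (hdns x hx)
      · exact hD M w Z (ins x I) I x bs hJe hIJ hsys hKD
  exact subI hJ K (mem_ins.2 (Or.inr rfl))

end SW.DV
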