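import Pool.Agent.H35.DV.Stmts
import Pool.Agent.H31.CT.NCN

/-!
Module NCN: nice names exist.
-/

set_option linter.unusedVariables false
set_option synthInstance.maxSize 100000

namespace SW.DV

theorem dv_ncn (hacf : ACFStmt) (hmax : MAXAStmt) (hccz : CCZStmt) (hzf : ZFXStmt)
    (hzvx : ZVXStmt) : NCNStmt := by
  intro M _ _ w Z I D hB hI hD
  have zv := hzvx M w Z hB
  have zf := hzf M w Z hB
  have hDm : ∀ u q, E q (sep (PQ w Z I) (fun q : M => D u q)) ↔ E q (PQ w Z I) ∧ D u q :=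
    fun u q => mem_sep' inferInstance
  obtain ⟨A, hA⟩ := ncn_chs hacf (UN w) (fun u a : M =>
      Sub a (sep (PQ w Z I) (fun q : M => D u q)) ∧ Anti (PQ w Z I) a ∧
      ∀ d : M, E d (sep (PQ w Z I) (fun q : M => D u q)) → ∃ q : M, E q a ∧ Cpt (PQ w Z I) q d)
    inferInstance (fun u hu => hmax M (PQ w Z I) _ (fun z hz => ((hDm u z).1 hz).1))
  obtain ⟨N, hN⟩ := ncn_chs hacf (UN w) (fun u f : M =>
      ∀ y : M, E y (app A u) → ∃ x : M, E x Z ∧ y = app f x) inferInstance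
    (fun u hu => hccz M w Z I (app A u) hB hI (hA u hu).2.1)
  have he : ∀ t, E t (sep (prod (UN w) (PQ w Z I)) (fun t : M => ∃ u q : M, t = opair u q ∧
      E q (app A u))) ↔ E t (prod (UN w) (PQ w Z I)) ∧ ∃ u q : M, t = opair u q ∧
      E q (app A u) := fun t => mem_sep' inferInstance
  have he' : ∀ u q, E (opair u q) (sep (prod (UN w) (PQ w Z I)) (fun t : M => ∃ u q : M,
      t = opair u q ∧ E q (app A u))) ↔ E u (UN w) ∧ E q (app A u) := by
    intro u q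
    rw [he, mem_prod]
    constructor
    · rintro ⟨⟨hu, hq⟩, u', q', h1, h2⟩
      rw [opair_inj] at h1
      rw [← h1.1, ← h1.2] at h2
      exact ⟨hu, h2⟩
    · rintro ⟨hu, hq⟩
      exact ⟨⟨hu, ((hDm u q).1 ((hA u hu).1 q hq)).1⟩, u, q, rfl, hq⟩
  refine ⟨sep (prod (UN w) (PQ w Z I)) (fun t : M => ∃ u q : M, t = opair u q ∧
      E q (app A u)), ?_, ?_, ?_⟩
  · intro t ht
    obtain ⟨h1, u, q, rfl, h2⟩ := (he t).1 ht
    obtain ⟨hu, hq⟩ := mem_prod.1 h1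
    exact ⟨u, q, hu, hq, ((hDm u q).1 ((hA u hu).1 q h2)).2, rfl⟩
  · intro u q hu hq hDq
    obtain ⟨q', h1, h2⟩ := (hA u hu).2.2 q ((hDm u q).2 ⟨hq, hDq⟩)
    exact ⟨q', (he' u q').2 ⟨hu, h1⟩, h2⟩
  · have hfdf : Fn1 (fun z : M => the (fun t : M => ∃ u z' : M, z = opair u z' ∧
      t = opair u (app (app N u) z'))) := inferInstance
    refine ⟨gr Z (fun z : M => the (fun t : M => ∃ u z' : M, z = opair u z' ∧
      t = opair u (app (app N u) z'))), fun t ht => ?_⟩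
    obtain ⟨h1, u, q, rfl, h2⟩ := (he t).1 ht
    obtain ⟨hu, hq⟩ := mem_prod.1 h1
    obtain ⟨x, hx, rfl⟩ := hN u hu q h2
    have huZ : E u Z := by
      obtain ⟨b, h, hb, hh, rfl⟩ := mem_UN.1 hu
      exact zf.opZ (zf.wZ _ hb) (zv.cof hh).2
    refine ⟨opair u x, zf.opZ huZ hx, ?_⟩
    rw [app_gr hfdf (zf.opZ huZ hx)]
    symm
    refine the_eq ⟨u, x, rfl, rfl⟩ ?_
    rintro t' ⟨u', z', h3, rfl⟩
    rw [opair_inj] at h3
    rw [h3.1, h3.2]

end SW.DV
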