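import Pool.Agent.H83.DV.BCK

/-!
Module ONE: an open dense set is reached for all decisions.
-/

set_option linter.unusedVariables false
set_option synthInstance.maxSize 100000

namespace SW.DV

section
variable {M : Type} [SetStr M] [ZF M]

/-- power sets of finite sets are finite -/
theorem one_pow {x : M} (hx : Fnt x) : Fnt (pow x) := by
  refine finF.ind (fun x : M => Fnt (pow x)) inferInstance ?_ ?_ x hx
  · have : pow (emp : M) = ins emp emp := SW.ext fun z => by
      rw [mem_pow, mem_ins]
      constructor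
      · intro h
        exact Or.inr (eq_emp fun y hy => not_mem_emp y (h y hy))
      · rintro (h | rfl)
        · exact absurd h (not_mem_emp z)
        · exact Sub.refl _
    rw [this]
    exact finF.ins finF.emp
  · intro x a hx ha ih
    refine finF.sub (finF.bun ih (finF.img (fun y : M => ins a y) inferInstance ih)) ?_
    intro z hz
    rw [mem_pow] at hz
    rw [mem_bun, mem_pow, mem_img' inferInstance]
    by_cases haz : E a z
    · right
      refine ⟨diff z (sing a), ?_, SW.ext fun y => ?_⟩
      · rw [mem_pow]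
        intro y hy
        rw [mem_diff, mem_sing] at hy
        rcases mem_ins.1 (hz y hy.1) with h | h
        · exact h
        · exact absurd h hy.2
      · rw [mem_ins, mem_diff, mem_sing]
        constructor
        · intro hy
          by_cases hya : y = a
          · exact Or.inr hya
          · exact Or.inl ⟨hy, hya⟩
        · rintro (h | rfl)
          · exact h.1
          · exact haz
    · left
      intro y hy
      rcases mem_ins.1 (hz y hy) with h | h
      · exact h
      · rw [h] at hy
        exact absurd hy haz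

end

theorem dv_one (hmdx : MDXStmt) (hmdf : MDFStmt) (hbck : BCKStmt) : ONEStmt := by
  intro M _ _ w Z I p e D hb hI hDc hD1 hD2 hp he
  have md' := hmdx M w Z I hb hI
  have hmono : ∀ q q' s, Sub q q' → Sub (md q e s) (md q' e s) := by
    intro q q' s hs z hz
    rw [bck_mem_md] at hz ⊢
    rcases hz with ⟨h1, h2⟩ | h
    · refine Or.inl ⟨hs z h1, fun h3 => h2 ?_⟩
      rw [bck_mem_At] at h3 ⊢
      exact ⟨h1, h3.2⟩
    · exact Or.inr h
  have hmdq : ∀ q s, E q (PQ w Z I) → Dc e s → E (md q e s) (PQ w Z I) := by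
    intro q s hq hs
    obtain ⟨a, ha⟩ := mem_PQ.1 hq
    exact mem_PQ.2 ⟨a, hmdf M w Z I a q e s hb hI ha he (md'.dl hs)⟩
  have key : ∀ T, Fnt T → ∃ q, E q (PQ w Z I) ∧ Sub p q ∧ Sm e p q ∧
      ∀ s, E s T → Dc e s → D (md q e s) := by
    refine finF.ind (fun T : M => ∃ q : M, E q (PQ w Z I) ∧ Sub p q ∧ Sm e p q ∧
      ∀ s : M, E s T → Dc e s → D (md q e s)) inferInstance ?_ ?_
    · exact ⟨p, hp, Sub.refl p, fun K n j v _ => Iff.rfl, fun s hs => absurd hs (not_mem_emp s)⟩
    · intro T s0 hT _ ⟨q, hq, hpq, hsm, h⟩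
      by_cases hs0 : Dc e s0
      · obtain ⟨u, hu, h1, h2⟩ := hD1 _ (hmdq q s0 hq hs0)
        obtain ⟨a, ha⟩ := mem_PQ.1 hq
        obtain ⟨b, hb'⟩ := mem_PQ.1 hu
        have hd : Sub (diff q (At e q)) u := fun z hz => h1 z (by
          rw [bck_mem_md]
          rw [mem_diff] at hz
          exact Or.inl hz)
        obtain ⟨h3, h4, h5, _, h6⟩ := hbck M w Z I a b q u e hb hI ha hb' he hd
        have hs0u : Sub s0 u := fun z hz => h1 z (by rw [bck_mem_md]; exact Or.inr hz)
        refine ⟨_, mem_PQ.2 ⟨b, h3⟩, hpq.trans h4, fun K n j v hx =>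
          (h5 K n j v hx).trans (hsm K n j v hx), fun s hs hds => ?_⟩
        rcases mem_ins.1 hs with hs | rfl
        · exact hD2 _ _ (hmdq q s hq hds) (hmdq _ s (mem_PQ.2 ⟨b, h3⟩) hds)
            (hmono _ _ s h4) (h s hs hds)
        · rw [h6 s hds hs0u]
          exact h2
      · refine ⟨q, hq, hpq, hsm, fun s hs hds => ?_⟩
        rcases mem_ins.1 hs with hs | rfl
        · exact h s hs hds
        · exact absurd hds hs0
  obtain ⟨q, hq, hpq, hsm, h⟩ := key (pow (En e)) (one_pow (md'.enf he))
  exact ⟨q, hq, hpq, hsm, fun s hs => h s (by rw [mem_pow]; exact hs.1) hs⟩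

end SW.DV
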