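import Pool.Agent.H83.DV.EXH

/-!
Module ROG: the generic rows.
-/

set_option linter.unusedVariables false
set_option synthInstance.maxSize 100000

namespace SW.DV

section
variable {M : Type} [SetStr M] [ZF M]

theorem rog_evs {f g : M} (h : Evd f g) : Evd g f := by
  obtain ⟨m, hm, h⟩ := h
  exact ⟨m, hm, fun j hj hmj h' => h j hj hmj h'.symm⟩

/-- the value of a name for a function given by a class relation -/
theorem rog_app {F : FPoset M} {G : M → Prop} (hG : Gen F G) [ZF (Ext F G)] {X : M}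
    {R : M → M → Prop} (hR : Cl2 R) {p b f : M} (hp : G p) (hX : E (opair b f) X)
    (hr : R p (opair b f)) (hx : ∀ p x, R p x → ∃ b f, x = opair b f)
    (hu : ∀ p' f', G p' → R p' (opair b f') → f' = f) :
    app (mk F G (Nmx F X R)) (emb F G b) = emb F G f := by
  have ef := embF hG
  have tf := traF hG
  refine the_eq ?_ fun z hz => ?_
  · rw [← tf.opair, mem_mk_Nmx hG hR]
    exact ⟨p, _, hp, hX, hr, rfl⟩
  · rw [mem_mk_Nmx hG hR] at hz
    obtain ⟨p', x, hp', _, hr', h1⟩ := hz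
    obtain ⟨b', f', rfl⟩ := hx p' x hr'
    rw [tf.opair, opair_inj, ef.inj] at h1
    obtain ⟨rfl, rfl⟩ := h1
    rw [hu p' f' hp' hr']

end

theorem dv_rog (hcv : CVXStmt) (hzvx : ZVXStmt) (hexh : EXHStmt) (hext : EXTStmt) :
    ROGStmt := by
  intro M _ _ _ w Z I G hns hG _
  have hI := hns.emp
  have hb := hns.bs
  have cv := hcv M w Z I hb hI
  have zv := hzvx M w Z hb
  have gf := genF hG
  have hcnd : ∀ p, G p → ∃ a, Cnd w Z I a p := fun p hp => mem_PQ.1 (hG.sub p hp)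
  have hbw : ∀ {p b f c S}, G p → Rw p b f c S → E b w := by
    intro p b f c S hp hr
    obtain ⟨a, ha⟩ := hcnd p hp
    exact hb.w1.1.trans (cv.ht ha).1 (cv.rowb ha hr)
  have huniq : ∀ {p p' b f c S f' c' S'}, G p → G p' → Rw p b f c S → Rw p' b f' c' S' →
      f' = f ∧ c' = c := by
    intro p p' b f c S f' c' S' hp hp' hr hr'
    obtain ⟨r, hr0, h1, h2⟩ := hG.dir p p' hp hp'
    obtain ⟨a, ha⟩ := hcnd r hr0
    have h3 := cv.rowu ha (h2 _ hr') (h1 _ hr)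
    exact ⟨h3.1, h3.2.1⟩
  have hrow : ∀ b, E b w → ∃ p f c S, G p ∧ Rw p b f c S := by
    intro b hbw
    obtain ⟨p, hp, f, c, S, hr⟩ := gf.meetC (fun q => ∃ f c S, Rw q b f c S) inferInstance (by
      intro p hp
      obtain ⟨q, a, hq, hpq, hba⟩ := hexh M w Z I p b hns hp hbw
      obtain ⟨f, c, S, hr, _⟩ := cv.row hq hba
      exact ⟨q, mem_PQ.2 ⟨a, hq⟩, hpq, f, c, S, hr⟩)
    exact ⟨p, f, c, S, hp, hr⟩
  refine ⟨fun p b f c S hp hr => ?_, fun b hbw' => ?_, fun b b' h1 h2 hne => ?_, fun c hc => ?_⟩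
  · obtain ⟨a, ha⟩ := hcnd p hp
    obtain ⟨hf, hc, _⟩ := cv.rowl ha hr
    constructor
    · unfold GA
      refine rog_app hG inferInstance hp ?_ ⟨b, f, c, S, hr, rfl⟩ ?_ ?_
      · exact mem_prod.2 ⟨hbw hp hr, (zv.cof hf.1).2⟩
      · rintro p x ⟨b, f, c, S, _, rfl⟩
        exact ⟨b, f, rfl⟩
      · rintro p' f' hp' ⟨b1, f1, c1, S1, hr1, h⟩
        rw [opair_inj] at h
        obtain ⟨rfl, rfl⟩ := h
        exact (huniq hp hp' hr hr1).1
    · unfold GC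
      refine rog_app hG inferInstance hp ?_ ⟨b, f, c, S, hr, rfl⟩ ?_ ?_
      · exact mem_prod.2 ⟨hbw hp hr, (zv.cof hc).2⟩
      · rintro p x ⟨b, f, c, S, _, rfl⟩
        exact ⟨b, c, rfl⟩
      · rintro p' f' hp' ⟨b1, f1, c1, S1, hr1, h⟩
        rw [opair_inj] at h
        obtain ⟨rfl, rfl⟩ := h
        exact (huniq hp hp' hr hr1).2
  · obtain ⟨p, f, c, S, hp, hr⟩ := hrow b hbw'
    obtain ⟨a, ha⟩ := hcnd p hp
    obtain ⟨hf, hc, _⟩ := cv.rowl ha hr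
    exact ⟨p, f, c, S, hp, hr, hf, hc⟩
  · obtain ⟨p, f, c, S, hp, hr⟩ := hrow b h1
    obtain ⟨p', f', c', S', hp', hr'⟩ := hrow b' h2
    obtain ⟨r, hr0, h3, h4⟩ := hG.dir p p' hp hp'
    obtain ⟨a, ha⟩ := hcnd r hr0
    refine ⟨r, f, c, S, f', c', S', hr0, h3 _ hr, h4 _ hr', ?_⟩
    have ho := (cv.ht ha).2
    rcases (ho.mem (cv.rowb ha (h3 _ hr))).tri (ho.mem (cv.rowb ha (h4 _ hr'))) with h5 | h5 | h5
    · exact rog_evs (ha.2.2.1.2.2.2 _ _ _ _ _ _ _ _ h5 (h4 _ hr') (h3 _ hr)).1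
    · exact absurd h5 hne
    · exact (ha.2.2.1.2.2.2 _ _ _ _ _ _ _ _ h5 (h3 _ hr) (h4 _ hr')).1
  · obtain ⟨p, hp, b, f, S, hr⟩ := gf.meetC (fun q => ∃ b f S, Rw q b f c S) inferInstance (by
      intro p hp
      obtain ⟨a, ha⟩ := mem_PQ.1 hp
      obtain ⟨q, f, S, hq, hpq, hr, _⟩ := hext M w Z I a p c hb hI ha hc
      exact ⟨q, mem_PQ.2 ⟨_, hq⟩, hpq, a, f, S, hr⟩)
    exact ⟨p, b, f, S, hp, hbw hp hr, hr⟩

end SW.DV
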