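import Pool.Agent.H83.DV.CRD

/-!
Module ROX: a new row function.
-/

set_option linter.unusedVariables false
set_option synthInstance.maxSize 100000

namespace SW.DV

section
variable {M : Type} [SetStr M] [ZF M]

/-- the forced function of a column -/
noncomputable def rox_ff (s : M) : M := gr om (fun j => the (fun v => E v (suc j) ∧
  ¬ E (opair j v) s))

theorem rox_ff_df : Fn1 (fun s : M => rox_ff s) := by unfold rox_ff; infer_instance

instance {n : ℕ} {t : (Fin n → M) → M} [ht : DfT t] : DfT (fun v => rox_ff (t v)) :=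
  rox_ff_df.comp1 ht

theorem rox_app_ff {s j v : M} (hs : CL s) (hj : E j om) (h : E (opair j emp) s)
    (hv : E v (suc j)) (hv' : ¬ E (opair j v) s) : app (rox_ff s) j = v := by
  unfold rox_ff
  rw [app_gr inferInstance hj]
  exact the_eq ⟨hv, hv'⟩ fun z hz => (hs.2.1 j hj).2 z v h hz.1 hv hz.2 hv'

/-- number `i` in the numbering `N` of `A` -/
noncomputable def rox_a (A N i : M) : M := the (fun a => E a A ∧ E (opair a i) N)

theorem rox_a_df : DfT (fun v : Fin 3 → M => rox_a (v 0) (v 1) (v 2)) := by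
  unfold rox_a; infer_instance

instance {n : ℕ} {t s u : (Fin n → M) → M} [ht : DfT t] [hs : DfT s] [hu : DfT u] :
    DfT (fun v => rox_a (t v) (s v) (u v)) :=
  rox_a_df.comp3 (f := fun a b c => rox_a a b c) ht hs hu

/-- the position of the state number `l` -/
noncomputable def rox_j (F l : M) : M := fs (sn (app F l))

theorem rox_j_df : Fn2 (fun F l : M => rox_j F l) := by unfold rox_j; infer_instance

instance {n : ℕ} {t s : (Fin n → M) → M} [ht : DfT t] [hs : DfT s] :
    DfT (fun v => rox_j (t v) (s v)) := rox_j_df.comp2 ht hs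

/-- the column of the state number `l` -/
noncomputable def rox_s (F l : M) : M := sn (sn (app F l))

theorem rox_s_df : Fn2 (fun F l : M => rox_s F l) := by unfold rox_s; infer_instance

instance {n : ℕ} {t s : (Fin n → M) → M} [ht : DfT t] [hs : DfT s] :
    DfT (fun v => rox_s (t v) (s v)) := rox_s_df.comp2 ht hs

/-- `v` is a possible value at `j` -/
def rox_P (A N F j v : M) : Prop := E v (suc j) ∧ v ≠ emp ∧
  (∀ l, E l om → rox_j F l = j → ¬ E (opair j v) (rox_s F l) ∧
    ∀ i, E i l → v ≠ app (rox_a A N i) j) ∧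
  ((¬ ∃ l, E l om ∧ rox_j F l = j) → ∀ i, E (suc i) j → v ≠ app (rox_a A N i) j)

theorem rox_P_df : Df (fun v : Fin 5 → M => rox_P (v 0) (v 1) (v 2) (v 3) (v 4)) := by
  unfold rox_P; infer_instance

instance {n : ℕ} {t s u x y : (Fin n → M) → M} [ht : DfT t] [hs : DfT s] [hu : DfT u]
    [hx : DfT x] [hy : DfT y] : Df (fun v => rox_P (t v) (s v) (u v) (x v) (y v)) := by
  unfold rox_P; infer_instance

/-- the function -/
noncomputable def rox_f (A N F : M) : M :=
  gr om (fun j => the (fun v => rox_P A N F j v ∧ ∀ u, E u v → ¬ rox_P A N F j u))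

theorem rox_f_zero {A N F : M} : app (rox_f A N F) emp = emp := by
  unfold rox_f
  rw [app_gr inferInstance emp_mem_om]
  unfold the
  rw [dif_neg]
  rintro ⟨v, ⟨hv, _⟩, _⟩
  rcases mem_suc.1 hv.1 with h | h
  · exact not_mem_emp _ h
  · exact hv.2.1 h

theorem rox_f_spec {A N F j v : M} (hj : E j om) (h : rox_P A N F j v) :
    rox_P A N F j (app (rox_f A N F) j) := by
  have hjo := Ord_nat (suc_mem_om hj)
  obtain ⟨b, hb, h1, h2, _⟩ := ord_min (C := fun v : M => rox_P A N F j v) inferInstance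
    (hjo.mem h.1) h
  have h3 : app (rox_f A N F) j = b := by
    unfold rox_f
    rw [app_gr inferInstance hj]
    refine the_eq ⟨h1, fun u hu => h2 u hu⟩ fun z hz => ?_
    rcases (hjo.mem hz.1.1).tri hb with h4 | h4 | h4
    · exact absurd hz.1 (h2 z h4)
    · exact h4
    · exact absurd h1 (hz.2 b h4)
  rw [h3]
  exact h1

end

/-- the states -/
theorem rox_seq (hbkl : BKLStmt) (hcbt : CBTStmt) (M : Type) [SetStr M] [ZFC M] (B : M)
    (hB : Cb B) (hBs : ∀ s, E s B → CL s) (hne : E emp B) :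
    ∃ F : M, (∀ l, E l om → E (rox_j F l) om ∧ E (rox_s F l) B ∧
      E l (card (Wn (rox_s F l) (rox_j F l))) ∧ E (rox_j F l) (rox_j F (suc l))) ∧
      ∀ n s, E n om → E s B → ∃ l, E l om ∧ E n l ∧ rox_s F l = s := by
  have hX : ∀ x : M, E x (sep (prod om (prod om B)) (fun x : M => E (fs x)
      (card (Wn (sn (sn x)) (fs (sn x)))))) ↔ ∃ k j s, E k om ∧ E j om ∧ E s B ∧
        E k (card (Wn s j)) ∧ x = opair k (opair j s) := by
    intro x
    rw [mem_sep' inferInstance, mem_prod']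
    constructor
    · rintro ⟨⟨k, y, hk, hy, rfl⟩, h⟩
      obtain ⟨j, s, hj, hs, rfl⟩ := mem_prod'.1 hy
      simp only [fs_op, sn_op] at h
      exact ⟨k, j, s, hk, hj, hs, h, rfl⟩
    · rintro ⟨k, j, s, hk, hj, hs, h, rfl⟩
      refine ⟨⟨k, opair j s, hk, mem_prod.2 ⟨hj, hs⟩, rfl⟩, ?_⟩
      simp only [fs_op, sn_op]
      exact h
  have hstep : ∀ k j t, E k om → E j om → E t B → ∃ j', E j' om ∧ E j j' ∧
      E (suc k) (card (Wn t j')) := by
    intro k j t hk hj ht
    obtain ⟨m, hm, hm'⟩ : ∃ m, E m om ∧ Sub (suc k) m ∧ Sub (suc j) m :=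
      ⟨_, (crd_max (suc_mem_om hk) (suc_mem_om hj)).1, (crd_max (suc_mem_om hk)
        (suc_mem_om hj)).2⟩
    obtain ⟨j', hj', h1, h2⟩ := (hBs t ht).2.2 m hm
    refine ⟨j', hj', h1 _ (hm'.2 _ (mem_suc.2 (Or.inr rfl))), ?_⟩
    have hc : Fnt (Wn t j') := finF.sub (finF.nat (suc_mem_om hj')) fun z hz => (mem_Wn.1 hz).1
    have ho := Ord_nat (finF.card_om hc)
    rcases ((Ord_nat (suc_mem_om hk)).sub_iff (Ord_nat hm)).1 hm'.1 with h3 | h3
    · exact ho.trans h2 h3
    · rw [h3]; exact h2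
  obtain ⟨j0, hj0, _, h0⟩ := (hBs emp hne).2.2 emp emp_mem_om
  obtain ⟨F, hF0, hF1, hF2⟩ := hbkl M (sep (prod om (prod om B)) (fun x : M => E (fs x)
      (card (Wn (sn (sn x)) (fs (sn x)))))) (opair emp (opair j0 emp))
    (fun x y => fs y = suc (fs x) ∧ E (fs (sn x)) (fs (sn y)))
    (fun t y => sn (sn y) = t) (fun _ => B) inferInstance inferInstance inferInstance
    ((hX _).2 ⟨emp, j0, emp, emp_mem_om, hj0, hne, h0, rfl⟩) (fun x hx => hB)
    (by
      intro x hx
      obtain ⟨k, j, s, hk, hj, hs, h, rfl⟩ := (hX x).1 hx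
      obtain ⟨j', hj', h1, h2⟩ := hstep k j s hk hj hs
      refine ⟨opair (suc k) (opair j' s), (hX _).2 ⟨_, _, _, suc_mem_om hk, hj', hs, h2, rfl⟩, ?_⟩
      simp only [fs_op, sn_op]
      exact ⟨trivial, h1⟩)
    (by
      intro x x' t hx hx' ht
      obtain ⟨k, j, s, hk, hj, hs, h, rfl⟩ := (hX x).1 hx
      obtain ⟨j', hj', h1, h2⟩ := hstep k j t hk hj ht
      refine ⟨opair (suc k) (opair j' t), (hX _).2 ⟨_, _, _, suc_mem_om hk, hj', ht, h2, rfl⟩, ?_⟩
      simp only [fs_op, sn_op]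
      exact ⟨⟨trivial, h1⟩, trivial⟩)
  have hk : ∀ l, E l om → fs (app F l) = l := by
    refine om_ind (C := fun l : M => fs (app F l) = l) inferInstance ?_ ?_
    · rw [hF0, fs_op]
    · intro l hl ih
      rw [(hF1 l hl).2.1, ih]
  refine ⟨F, fun l hl => ?_, fun n s hn hs => ?_⟩
  · obtain ⟨k, j, s, hk', hj, hs, h, h4⟩ := (hX _).1 (hF1 l hl).1
    have h5 := hk l hl
    have h6 : rox_j F l = j := by unfold rox_j; rw [h4]; simp
    have h7 : rox_s F l = s := by unfold rox_s; rw [h4]; simp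
    rw [h4, fs_op] at h5
    rw [h6, h7]
    refine ⟨hj, hs, ?_, ?_⟩
    · rw [h5] at h; exact h
    · rw [← h6]; exact (hF1 l hl).2.2
  · obtain ⟨l, hl, h1, h2⟩ := hF2 n s hn hs
    exact ⟨l, hl, h1, h2⟩

theorem dv_rox (hbkl : BKLStmt) (hcbt : CBTStmt) : ROXStmt := by
  intro M _ _ A B hA hB hAr hBc
  have cb := hcbt M
  -- the set of functions to be avoided
  have hB' : Cb (ins emp B) := cb.bun hB (cb.fin (by
    have : sing (emp : M) = ins emp emp := SW.ext fun z => by
      rw [mem_sing, mem_ins]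
      exact ⟨Or.inr, fun h => h.elim (fun h => absurd h (not_mem_emp _)) id⟩
    rw [this]; exact finF.ins finF.emp))
  have hBc' : ∀ s, E s (ins emp B) → CL s := by
    intro s hs
    rcases mem_ins.1 hs with hs | rfl
    · exact hBc s hs
    · exact CL_emp
  have hA' : Cb (bun A (img B (fun s => rox_ff s))) :=
    cb.bun hA (cb.img (fun s => rox_ff s) inferInstance hB)
  obtain ⟨N, hN1, hN2⟩ := hA'
  generalize hAA : bun A (img B (fun s => rox_ff s)) = AA at hN1 hN2
  obtain ⟨F, hF1, hF2⟩ := rox_seq hbkl hcbt M (ins emp B) hB' hBc' (mem_ins.2 (Or.inr rfl))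
  have hmono : ∀ m, E m om → ∀ l, E l m → E (rox_j F l) (rox_j F m) := by
    refine om_ind (C := fun m : M => ∀ l : M, E l m → E (rox_j F l) (rox_j F m)) inferInstance ?_ ?_
    · intro l hl
      exact absurd hl (not_mem_emp l)
    · intro m hm ih l hl
      rcases mem_suc.1 hl with hl | rfl
      · exact (Ord_nat (hF1 _ (suc_mem_om hm)).1).trans (hF1 m hm).2.2.2 (ih l hl)
      · exact (hF1 _ hm).2.2.2
  have hge : ∀ m, E m om → Sub m (rox_j F m) := by
    refine om_ind (C := fun m : M => Sub m (rox_j F m)) inferInstance ?_ ?_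
    · intro z hz
      exact absurd hz (not_mem_emp z)
    · intro m hm ih
      have h1 := Ord_nat (hF1 _ hm).1
      have h2 := Ord_nat (hF1 _ (suc_mem_om hm)).1
      refine (Ord_nat hm).suc_sub h2 ?_
      rcases ((Ord_nat hm).sub_iff h1).1 ih with h3 | h3
      · exact h2.trans (hF1 m hm).2.2.2 h3
      · have := (hF1 m hm).2.2.2
        rw [← h3] at this
        exact this
  have hinj : ∀ l l', E l om → E l' om → rox_j F l = rox_j F l' → l = l' := by
    intro l l' hl hl' h
    rcases (Ord_nat hl).tri (Ord_nat hl') with h1 | h1 | h1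
    · have := hmono l' hl' l h1
      rw [h] at this
      exact absurd this (not_mem_self _)
    · exact h1
    · have := hmono l hl l' h1
      rw [h] at this
      exact absurd this (not_mem_self _)
  have hspec : ∀ j, E j om → j ≠ emp → rox_P AA N F j (app (rox_f AA N F) j) := by
    intro j hj hj0
    by_cases hl : ∃ l, E l om ∧ rox_j F l = j
    · obtain ⟨l, hl, h1⟩ := hl
      have hc : Fnt (Wn (rox_s F l) j) :=
        finF.sub (finF.nat (suc_mem_om hj)) fun z hz => (mem_Wn.1 hz).1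
      have h2 := (hF1 l hl).2.2.1
      rw [h1] at h2
      obtain ⟨v, hv, hv'⟩ := crd_pig (fun i : M => app (rox_a AA N i) j) inferInstance hl _ hc h2
      rw [mem_Wn] at hv
      refine rox_f_spec (v := v) hj ⟨hv.1, hv.2.1, fun l' hl' h3 => ?_, fun h => ?_⟩
      · have : l' = l := hinj l' l hl' hl (h3.trans h1.symm)
        rw [this]
        exact ⟨hv.2.2, hv'⟩
      · exact absurd ⟨l, hl, h1⟩ h
    · obtain ⟨k, hk, rfl⟩ := (om_cases hj).resolve_left hj0
      have hc : Fnt (Wn emp (suc k)) :=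
        finF.sub (finF.nat (suc_mem_om hj)) fun z hz => (mem_Wn.1 hz).1
      have h2 : E k (card (Wn emp (suc k))) := by
        rw [card_Wn_emp hj]; exact mem_suc.2 (Or.inr rfl)
      obtain ⟨v, hv, hv'⟩ := crd_pig (fun i : M => app (rox_a AA N i) (suc k)) inferInstance hk _
        hc h2
      rw [mem_Wn] at hv
      refine rox_f_spec (v := v) hj ⟨hv.1, hv.2.1, fun l hl' h3 => ?_, fun h i hi => ?_⟩
      · exact absurd ⟨l, hl', h3⟩ hl
      · have h4 : Ord i := (Ord_nat hj).mem ((Ord_nat hj).trans hi (mem_suc.2 (Or.inr rfl)))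
        exact hv' i ((suc_mem_suc h4 (Ord_nat hk)).1 hi)
  have hRL : RL (rox_f AA N F) := by
    have h1 : ∀ j, E j om → E (app (rox_f AA N F) j) (suc j) ∧
        (j ≠ emp → app (rox_f AA N F) j ≠ emp) := by
      intro j hj
      by_cases hj0 : j = emp
      · subst hj0
        rw [rox_f_zero]
        exact ⟨mem_suc.2 (Or.inr rfl), fun h => absurd rfl h⟩
      · have := hspec j hj hj0
        exact ⟨this.1, fun _ => this.2.1⟩
    have h2 : ∀ j v, E (opair j v) (rox_f AA N F) ↔ E j om ∧ v = app (rox_f AA N F) j := by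
      intro j v
      constructor
      · intro h
        have h' := h
        unfold rox_f at h'
        rw [opair_mem_gr inferInstance] at h'
        refine ⟨h'.1, ?_⟩
        rw [h'.2]
        unfold rox_f
        rw [app_gr inferInstance h'.1]
      · rintro ⟨hj, rfl⟩
        unfold rox_f
        rw [opair_mem_gr inferInstance]
        refine ⟨hj, ?_⟩
        rw [app_gr inferInstance hj]
    refine ⟨⟨fun z hz => ?_, fun n hn => ⟨_, (h2 _ _).2 ⟨hn, rfl⟩⟩, fun n m m' hm hm' => ?_⟩, h1⟩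
    · have hz' := hz
      unfold rox_f at hz'
      rw [mem_gr' inferInstance] at hz'
      obtain ⟨j, hj, rfl⟩ := hz'
      refine ⟨_, _, hj, ?_, rfl⟩
      have := ((h2 _ _).1 hz).2
      rw [this]
      exact Ord_om.trans (suc_mem_om hj) (h1 j hj).1
    · rw [((h2 _ _).1 hm).2, ((h2 _ _).1 hm').2]
  have hav : ∀ a, E a AA → Evd (rox_f AA N F) a := by
    intro a ha
    obtain ⟨i, hi, hi'⟩ := hN1 a ha
    have hai : rox_a AA N i = a := the_eq ⟨ha, hi'⟩ fun z hz => hN2 z a i hz.1 ha hi hz.2 hi'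
    have hji := (hF1 i hi).1
    refine ⟨suc (suc (rox_j F i)), suc_mem_om (suc_mem_om hji), fun j hj hm => ?_⟩
    have hj1 : E (suc (rox_j F i)) j := hm _ (mem_suc.2 (Or.inr rfl))
    have hj2 : E (rox_j F i) j := (Ord_nat hj).trans hj1 (mem_suc.2 (Or.inr rfl))
    have hj0 : j ≠ emp := by
      rintro rfl
      exact not_mem_emp _ hj1
    have hP := hspec j hj hj0
    rw [← hai]
    by_cases hl : ∃ l, E l om ∧ rox_j F l = j
    · obtain ⟨l, hl, h1⟩ := hl
      refine (hP.2.2.1 l hl h1).2 i ?_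
      rcases (Ord_nat hi).tri (Ord_nat hl) with h2 | h2 | h2
      · exact h2
      · rw [← h2] at h1
        rw [h1] at hj2
        exact absurd hj2 (not_mem_self _)
      · have := hmono i hi l h2
        rw [h1] at this
        exact absurd hj2 (fun h => not_mem_cycle h this)
    · refine hP.2.2.2 hl i ?_
      rcases ((Ord_nat hi).sub_iff (Ord_nat hji)).1 (hge i hi) with h2 | h2
      · have h3 : E (suc i) (suc (rox_j F i)) :=
          (suc_mem_suc (Ord_nat hi) (Ord_nat hji)).2 h2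
        exact (Ord_nat hj).trans hj1 h3
      · rw [← h2] at hj1
        exact hj1
  refine ⟨rox_f AA N F, hRL, fun a ha => hav a (by rw [← hAA]; exact mem_bun.2 (Or.inl ha)),
    fun s hs => ⟨?_, fun m hm => ?_⟩⟩
  · obtain ⟨m, hm, h⟩ := hav (rox_ff s) (by
      rw [← hAA]; exact mem_bun.2 (Or.inr ((mem_img' inferInstance).2 ⟨s, hs, rfl⟩)))
    refine ⟨m, hm, fun j hj hmj h0 => ?_⟩
    by_contra hcon
    exact h j hj hmj (rox_app_ff (hBc s hs) hj h0 (hRL.2 j hj).1 hcon).symm
  · obtain ⟨l, hl, h1, h2⟩ := hF2 m s hm (mem_ins.2 (Or.inl hs))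
    have hj := (hF1 l hl).1
    have hml : E m (rox_j F l) := hge l hl m h1
    have hj0 : rox_j F l ≠ emp := by
      intro h
      rw [h] at hml
      exact not_mem_emp _ hml
    refine ⟨rox_j F l, hj, (Ord_nat hj).sub_of_mem hml, ?_⟩
    have := ((hspec _ hj hj0).2.2.1 l hl rfl).1
    rw [h2] at this
    exact this

end SW.DV
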