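import Pool.Agent.H83.DV.CRD

/-!
Module TRC: treating a row in a column.
-/

set_option linter.unusedVariables false
set_option synthInstance.maxSize 100000

namespace SW.DV

section
variable {M : Type} [SetStr M] [ZF M]

theorem trc_jz {s f l : M} (hg : Gd f s) (hl : E l om) : Pl s f l (jz s f l) := by
  obtain ⟨⟨m, hm, h1⟩, h2⟩ := hg
  obtain ⟨h3, h4, h5⟩ := crd_max hm (suc_mem_om hl)
  obtain ⟨j, hj, hmj, hj'⟩ := h2 _ h3
  have hP : Pl s f l j := by
    refine ⟨hj, hmj l (h5 l (mem_suc.2 (Or.inr rfl))), hj', fun i hi hji h => ?_⟩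
    exact h1 i hi (h4.trans (hmj.trans hji)) h
  obtain ⟨b, hb, h6, h7, _⟩ := ord_min (C := fun j : M => Pl s f l j) inferInstance
    (Ord_nat hj) hP
  have : jz s f l = b := by
    refine the_eq ⟨h6, h7⟩ fun z hz => ?_
    rcases (Ord_nat hz.1.1).tri hb with h4 | h4 | h4
    · exact absurd hz.1 (h7 z h4)
    · exact h4
    · exact absurd h6 (hz.2 b h4)
  rw [this]
  exact h6

theorem trc_mem {s f l j v : M} (hs : Wf s) (hf : RL f) (hj : E (jz s f l) om) :
    E (opair j v) (trc s f l) ↔ E (opair j v) s ∨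
      (j = jz s f l ∧ E v (suc j) ∧ v ≠ app f j) ∨ (E j om ∧ E (jz s f l) j ∧ v = app f j) := by
  unfold trc
  rw [mem_sep' inferInstance, mem_prod]
  constructor
  · rintro ⟨_, h | ⟨v', h1, h2, h3⟩ | ⟨j', h1, h2, h3⟩⟩
    · exact Or.inl h
    · rw [opair_inj] at h3
      obtain ⟨rfl, rfl⟩ := h3
      exact Or.inr (Or.inl ⟨rfl, h1, h2⟩)
    · rw [opair_inj] at h3
      obtain ⟨rfl, rfl⟩ := h3
      exact Or.inr (Or.inr ⟨h1, h2, rfl⟩)
  · rintro (h | ⟨rfl, h1, h2⟩ | ⟨h1, h2, rfl⟩)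
    · obtain ⟨j', v', hj', hv', h3⟩ := hs _ h
      rw [opair_inj] at h3
      obtain ⟨rfl, rfl⟩ := h3
      exact ⟨⟨hj', Ord_om.trans (suc_mem_om hj') hv'⟩, Or.inl h⟩
    · exact ⟨⟨hj, Ord_om.trans (suc_mem_om hj) h1⟩, Or.inr (Or.inl ⟨v, h1, h2, rfl⟩)⟩
    · exact ⟨⟨h1, Ord_om.trans (suc_mem_om h1) (hf.2 _ h1).1⟩, Or.inr (Or.inr ⟨j, h1, h2, rfl⟩)⟩

end

theorem dv_trc : TRCStmt := by
  intro M _ _ s f l hs hf hg hl
  have hP := trc_jz hg hl
  have hm : ∀ j v, E (opair j v) (trc s f l) ↔ E (opair j v) s ∨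
      (j = jz s f l ∧ E v (suc j) ∧ v ≠ app f j) ∨ (E j om ∧ E (jz s f l) j ∧ v = app f j) :=
    fun j v => trc_mem hs.1 hf hP.1
  have hpr : ∀ y, E y (trc s f l) → ∃ j v, y = opair j v := by
    intro y hy
    unfold trc at hy
    rw [mem_sep' inferInstance, mem_prod'] at hy
    obtain ⟨⟨j, v, _, _, h⟩, _⟩ := hy
    exact ⟨j, v, h⟩
  obtain ⟨hz, hlz, hfz, hPi⟩ := hP
  generalize jz s f l = z at hm hz hlz hfz hPi
  generalize trc s f l = t at hm hpr
  have hz0 : z ≠ emp := by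
    rintro rfl
    exact not_mem_emp _ hlz
  have hwf : ∀ j v, E (opair j v) s → E j om ∧ E v (suc j) := by
    intro j v h
    obtain ⟨j', v', hj', hv', h3⟩ := hs.1 _ h
    rw [opair_inj] at h3
    rw [h3.1, h3.2]
    exact ⟨hj', hv'⟩
  have hsub : Sub s t := by
    intro y hy
    obtain ⟨j, v, hj, hv, rfl⟩ := hs.1 _ hy
    exact (hm j v).2 (Or.inl hy)
  -- below, at and beyond the place
  have hlow : ∀ j v, E j om → E j z → (E (opair j v) t ↔ E (opair j v) s) := by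
    intro j v hj hjz
    rw [hm]
    constructor
    · rintro (h | ⟨rfl, _⟩ | ⟨_, h, _⟩)
      · exact h
      · exact absurd hjz (not_mem_self _)
      · exact absurd hjz fun h' => not_mem_cycle h h'
    · exact Or.inl
  have hhigh : ∀ j v, E j om → E z j → (E (opair j v) t ↔ E (opair j v) s ∨ v = app f j) := by
    intro j v hj hjz
    rw [hm]
    constructor
    · rintro (h | ⟨rfl, _⟩ | ⟨_, _, h⟩)
      · exact Or.inl h
      · exact absurd hjz (not_mem_self _)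
      · exact Or.inr h
    · rintro (h | h)
      · exact Or.inl h
      · exact Or.inr (Or.inr ⟨hj, hjz, h⟩)
  have hat : ∀ v, E (opair z v) t ↔ E (opair z v) s ∨ (E v (suc z) ∧ v ≠ app f z) := by
    intro v
    rw [hm]
    constructor
    · rintro (h | ⟨_, h1, h2⟩ | ⟨_, h, _⟩)
      · exact Or.inl h
      · exact Or.inr ⟨h1, h2⟩
      · exact absurd h (not_mem_self _)
    · rintro (h | ⟨h1, h2⟩)
      · exact Or.inl h
      · exact Or.inr (Or.inl ⟨rfl, h1, h2⟩)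
  have hne : ∀ j, E j om → E z j → j ≠ emp := by
    rintro j _ h rfl
    exact not_mem_emp _ h
  have hfz' : ¬ E (opair z (app f z)) t := by
    rw [hat]
    rintro (h | ⟨_, h⟩)
    · exact hfz h
    · exact h rfl
  have hcl : CL t := by
    refine ⟨fun y hy => ?_, fun j hj => ?_, fun k hk => ?_⟩
    · obtain ⟨j, v, rfl⟩ := hpr y hy
      rcases (hm j v).1 hy with h | ⟨rfl, h1, _⟩ | ⟨h1, _, rfl⟩
      · exact ⟨j, v, (hwf j v h).1, (hwf j v h).2, rfl⟩
      · exact ⟨_, v, hz, h1, rfl⟩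
      · exact ⟨j, _, h1, (hf.2 j h1).1, rfl⟩
    · rcases (Ord_nat hj).tri (Ord_nat hz) with h | rfl | h
      · obtain ⟨⟨v, hv, hv'⟩, h2⟩ := hs.2.1 j hj
        refine ⟨⟨v, hv, fun h' => hv' ((hlow j v hj h).1 h')⟩, fun v v' h0 h3 h4 h5 h6 => ?_⟩
        exact h2 v v' ((hlow _ _ hj h).1 h0) h3 h4 (fun h' => h5 ((hlow _ _ hj h).2 h'))
          (fun h' => h6 ((hlow _ _ hj h).2 h'))
      · refine ⟨⟨app f j, (hf.2 j hj).1, hfz'⟩, fun v v' h0 h3 h4 h5 h6 => ?_⟩
        rw [hat] at h5 h6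
        by_contra hvv
        by_cases h7 : v = app f j
        · by_cases h8 : v' = app f j
          · exact hvv (h7.trans h8.symm)
          · exact h6 (Or.inr ⟨h4, h8⟩)
        · exact h5 (Or.inr ⟨h3, h7⟩)
      · obtain ⟨⟨v, hv, hv'⟩, h2⟩ := hs.2.1 j hj
        have hf0 := (hf.2 j hj).2 (hne j hj h)
        refine ⟨?_, fun v v' h0 h3 h4 h5 h6 => ?_⟩
        · by_cases h0 : E (opair j emp) s
          · refine ⟨v, hv, fun h' => ?_⟩
            rcases (hhigh j v hj h).1 h' with h' | h'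
            · exact hv' h'
            · rw [h'] at hv'
              exact hv' (hPi j hj ((Ord_nat hj).sub_of_mem h) h0)
          · refine ⟨emp, emp_mem_ord (Ord_suc (Ord_nat hj)) (suc_ne_emp _), fun h' => ?_⟩
            rcases (hhigh j _ hj h).1 h' with h' | h'
            · exact h0 h'
            · exact hf0 h'.symm
        · rw [hhigh _ _ hj h] at h0 h5 h6
          rcases h0 with h0 | h0
          · exact h2 v v' h0 h3 h4 (fun h' => h5 (Or.inl h')) (fun h' => h6 (Or.inl h'))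
          · exact absurd h0.symm hf0
    · obtain ⟨h3, h4, h5⟩ := crd_max (suc_mem_om hk) (suc_mem_om hz)
      obtain ⟨j, hj, hj1, hj2⟩ := hs.2.2 _ h3
      have hzj : E z j := hj1 z (h5 z (mem_suc.2 (Or.inr rfl)))
      have hW : Fnt (Wn s j) := finF.sub (finF.nat (suc_mem_om hj)) fun z hz => (mem_Wn.1 hz).1
      have hW' : Fnt (Wn t j) := finF.sub (finF.nat (suc_mem_om hj)) fun z hz => (mem_Wn.1 hz).1
      have h6 : E (suc k) (card (Wn s j)) := by
        have ho := Ord_nat (finF.card_om hW)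
        rcases ((Ord_nat (suc_mem_om hk)).sub_iff (Ord_nat h3)).1 h4 with h7 | h7
        · exact ho.trans hj2 h7
        · rw [h7]; exact hj2
      refine ⟨j, hj, fun i hi => hj1 i (h4 i (mem_suc.2 (Or.inl hi))), ?_⟩
      refine finF.card_le hW' ?_ _ (crd_del (a := app f j) hW hk h6)
      intro v hv
      rw [mem_diff, mem_Wn, mem_sing] at hv
      rw [mem_Wn, hhigh _ _ hj hzj]
      exact ⟨hv.1.1, hv.1.2.1, fun h => h.elim hv.1.2.2 hv.2⟩
  refine ⟨hcl, hsub, fun j v hj hjl => ?_, ⟨suc z, suc_mem_om hz, fun j hj hzj => ?_⟩,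
    ⟨z, hz, hlz, ?_, hfz'⟩, fun f' hf' hev hg' => ?_⟩
  · refine hlow j v hj ?_
    rcases ((Ord_nat hj).sub_iff (Ord_nat hl)).1 hjl with h | rfl
    · exact (Ord_nat hz).trans hlz h
    · exact hlz
  · exact (hhigh j _ hj (hzj z (mem_suc.2 (Or.inr rfl)))).2 (Or.inr rfl)
  · exact (hat _).2 (Or.inr ⟨emp_mem_ord (Ord_suc (Ord_nat hz)) (suc_ne_emp _),
      fun h => (hf.2 z hz).2 hz0 h.symm⟩)
  · obtain ⟨me, hme, hev⟩ := hev
    obtain ⟨⟨m, hm1, h1⟩, h2⟩ := hg'
    refine ⟨?_, fun k hk => ?_⟩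
    · obtain ⟨h3, h4, h5⟩ := crd_max hm1 (suc_mem_om hz)
      refine ⟨_, h3, fun j hj hmj h => ?_⟩
      have hzj : E z j := hmj z (h5 z (mem_suc.2 (Or.inr rfl)))
      rcases (hhigh _ _ hj hzj).1 h with h | h
      · exact hsub _ (h1 j hj (h4.trans hmj) h)
      · exact absurd h.symm ((hf.2 j hj).2 (hne j hj hzj))
    · obtain ⟨h3, h4, h5⟩ := crd_max hk (suc_mem_om hz)
      obtain ⟨h6, h7, h8⟩ := crd_max h3 hme
      obtain ⟨j, hj, hj1, hj2⟩ := h2 _ h6
      have hzj : E z j := hj1 z (h7 z (h5 z (mem_suc.2 (Or.inr rfl))))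
      refine ⟨j, hj, (h4.trans h7).trans hj1, fun h => ?_⟩
      rcases (hhigh _ _ hj hzj).1 h with h | h
      · exact hj2 h
      · exact hev j hj (h8.trans hj1) h

end SW.DV
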