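import Pool.Agent.H83.DV.TRC

/-!
Module TRE: treating a row in a condition.
-/

set_option linter.unusedVariables false
set_option synthInstance.maxSize 100000

namespace SW.DV

section
variable {M : Type} [SetStr M] [ZF M]

/-- the bound `l n` -/
noncomputable def tre_l (h L n : M) : M := bun (app h n) L

theorem tre_l_df : DfT (fun v : Fin 3 → M => tre_l (v 0) (v 1) (v 2)) := by
  unfold tre_l; infer_instance

instance {n : ℕ} {t s u : (Fin n → M) → M} [ht : DfT t] [hs : DfT s] [hu : DfT u] :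
    DfT (fun v => tre_l (t v) (s v) (u v)) :=
  tre_l_df.comp3 (f := fun a b c => tre_l a b c) ht hs hu

/-- the new entries -/
noncomputable def tre_N (q K f h L : M) : M :=
  sep (prod (sing K) (prod om (prod om om))) (fun z => ∃ n y, E n om ∧
    E y (trc (col q K n) f (tre_l h L n)) ∧ z = opair K (opair n y))

theorem tre_mem_N {q K f h L K' n y : M} : E (opair K' (opair n y)) (tre_N q K f h L) ↔
    K' = K ∧ E n om ∧ E y (trc (col q K n) f (tre_l h L n)) := by
  unfold tre_N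
  rw [mem_sep' inferInstance, mem_prod, mem_prod, mem_sing]
  constructor
  · rintro ⟨⟨rfl, hn, _⟩, n', y', _, hy, h⟩
    simp only [opair_inj] at h
    obtain ⟨_, rfl, rfl⟩ := h
    exact ⟨rfl, hn, hy⟩
  · rintro ⟨rfl, hn, hy⟩
    refine ⟨⟨rfl, hn, ?_⟩, n, y, hn, hy, rfl⟩
    unfold trc at hy
    exact ((mem_sep' inferInstance).1 hy).1

theorem tre_N_shape {q K f h L z : M} (hz : E z (tre_N q K f h L)) : ∃ n y, E n om ∧
    E y (prod om om) ∧ z = opair K (opair n y) := by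
  unfold tre_N at hz
  rw [mem_sep' inferInstance] at hz
  obtain ⟨_, n, y, hn, hy, rfl⟩ := hz
  refine ⟨n, y, hn, ?_, rfl⟩
  unfold trc at hy
  exact ((mem_sep' inferInstance).1 hy).1

end

theorem dv_tre (hcv : CVXStmt) (hcbt : CBTStmt) (hwf : WFStmt) (hbck : BCKStmt)
    (htmo : TMOStmt) (hlsx : LSXStmt) (hzvx : ZVXStmt) : TREStmt := by
  intro M _ _ w Z I a p e K b hns hK hp hba he
  have hI := hns.emp
  have hbs := hns.bs
  have cv := hcv M w Z I hbs hI
  have cb := hcbt M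
  have wf := hwf M w hbs.w1
  have zv := hzvx M w Z hbs
  have ls := hlsx M
  have hKe : K ≠ emp := by
    rintro rfl
    exact hI hK
  obtain ⟨q1, h, r, hq1, hpq1, hr, hh, hls1⟩ := hns.tot K hK p b (mem_PQ.2 ⟨a, hp⟩)
    (hbs.w1.1.trans (cv.ht hp).1 hba)
  obtain ⟨b1, hc1⟩ := mem_PQ.1 hq1
  obtain ⟨hc2, hpq2, hsm2, hls2, _⟩ := hbck M w Z I a b1 p q1 e hbs hI hp hc1 he
    (fun z hz => hpq1 z (mem_diff.1 hz).1)
  generalize md q1 e (At e p) = q2 at hc2 hpq2 hsm2 hls2
  have hlsr : Ls q2 r := ls.trans hls2 hls1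
  obtain ⟨f, c, S, hrw, hf, _⟩ := cv.row hp hba
  have hrw2 : Rw q2 b f c S := hpq2 _ hrw
  have hK2 := hc2.2.2.2 K hK
  rcases hK2.2.2 b f c S hrw2 with hT | hG
  · exact ⟨q2, mem_PQ.2 ⟨b1, hc2⟩, hpq2, hsm2, hT⟩
  -- the bound for the positions of `e`
  obtain ⟨L, hL, hL'⟩ : ∃ L, E L om ∧ ∀ K' n j, E (opair K' (opair n j)) e → E j L := by
    obtain ⟨L, hL, hL'⟩ := crd_bdd (x := img e (fun x => sn (sn x)))
      (finF.img _ inferInstance he.1) (by
        intro z hz
        rw [mem_img' inferInstance] at hz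
        obtain ⟨x, hx, rfl⟩ := hz
        obtain ⟨K', n, j, _, _, hj, rfl⟩ := he.2 x hx
        rw [sn_op, sn_op]
        exact hj)
    refine ⟨L, hL, fun K' n j hx => hL' j ((mem_img' inferInstance).2 ⟨_, hx, ?_⟩)⟩
    rw [sn_op, sn_op]
  have hln : ∀ n, E n om → E (tre_l h L n) om ∧ Sub (app h n) (tre_l h L n) ∧
      Sub L (tre_l h L n) := fun n hn => crd_max (hh n hn) hL
  have htr : ∀ n, E n om → _ := fun n hn =>
    dv_trc M (col q2 K n) f (tre_l h L n) (hK2.2.1 n hn) hf (hG n hn) (hln n hn).1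
  -- the new condition
  obtain ⟨q3, hq3⟩ : ∃ q3, q3 = bun q2 (tre_N q2 K f h L) := ⟨_, rfl⟩
  have hsub : Sub q2 q3 := fun z hz => by rw [hq3]; exact mem_bun.2 (Or.inl hz)
  have hE : ∀ K' n x, Et q3 K' n x ↔ Et q2 K' n x ∨ (K' = K ∧ E n om ∧
      E x (trc (col q2 K n) f (tre_l h L n))) := by
    intro K' n x
    rw [hq3]
    unfold Et
    rw [mem_bun, tre_mem_N]
  have hEemp : ∀ n x, Et q3 emp n x ↔ Et q2 emp n x := by
    intro n x
    rw [hE]
    exact ⟨fun h => h.elim id fun h => absurd h.1.symm hKe, Or.inl⟩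
  have hEne : ∀ K' n x, K' ≠ K → (Et q3 K' n x ↔ Et q2 K' n x) := by
    intro K' n x hne
    rw [hE]
    exact ⟨fun h => h.elim id fun h => absurd h.1 hne, Or.inl⟩
  have hom : ∀ n x, Et q2 K n x → E n om ∧ E x (prod om om) := fun n x hx => hK2.1 n x hx
  have hcol3 : ∀ n, E n om → col q3 K n = trc (col q2 K n) f (tre_l h L n) := by
    intro n hn
    refine SW.ext fun x => ?_
    rw [mem_col, hE]
    constructor
    · rintro ⟨hx, h1 | ⟨_, _, h1⟩⟩
      · exact (htr n hn).2.1 x (mem_col.2 ⟨hx, h1⟩)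
      · exact h1
    · intro h1
      refine ⟨?_, Or.inr ⟨rfl, hn, h1⟩⟩
      unfold trc at h1
      exact ((mem_sep' inferInstance).1 h1).1
  have hcolne : ∀ K' n, K' ≠ K → col q3 K' n = col q2 K' n := by
    intro K' n hne
    refine SW.ext fun x => ?_
    rw [mem_col, mem_col, hEne K' n x hne]
  have hEx3 : ∀ n j v, E n om → (Ex q3 K n j v ↔
      E (opair j v) (trc (col q2 K n) f (tre_l h L n))) := by
    intro n j v hn
    unfold Ex
    rw [hE]
    constructor
    · rintro (h1 | ⟨_, _, h1⟩)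
      · exact (htr n hn).2.1 _ ((cv.colx hc2 hK).2 h1)
      · exact h1
    · intro h1
      exact Or.inr ⟨rfl, hn, h1⟩
  have hCL3 : ∀ K', E K' I → ∀ n, E n om → CL (col q3 K' n) := by
    intro K' hK' n hn
    by_cases hne : K' = K
    · rw [hne, hcol3 n hn]
      exact (htr n hn).1
    · rw [hcolne K' n hne]
      exact (hc2.2.2.2 K' hK').2.1 n hn
  have hTr3 : Tr q3 K b := by
    refine ⟨h, r, f, c, S, hsub _ hrw2, hr, ls.mono hsub hlsr, fun n hn => ?_, fun m hm => ?_⟩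
    · obtain ⟨m, hm, hm'⟩ := (htr n hn).2.2.2.1
      exact ⟨m, hm, fun j hj hmj => (hEx3 n j _ hn).2 (hm' j hj hmj)⟩
    · obtain ⟨j, hj, h1, h2, h3⟩ := (htr m hm).2.2.2.2.1
      refine ⟨m, j, hm, Sub.refl m, hj, ?_, (hEx3 m j _ hm).2 h2, fun h4 => h3 ((hEx3 m j _ hm).1 h4)⟩
      rcases ((Ord_nat (hh m hm)).sub_iff (Ord_nat (hln m hm).1)).1 (hln m hm).2.1 with h4 | h4
      · exact (Ord_nat hj).trans h1 h4
      · rw [h4]; exact h1
  have hc3 : Cnd w Z I b1 q3 := by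
    refine ⟨hc2.1, ⟨?_, fun z hz => ?_⟩, ⟨fun b x hx => ?_, fun b x x' hx hx' => ?_,
      fun b hb' => ?_, fun b b' f c S f' c' S' hbb h1 h2 => ?_⟩, fun K' hK' => ⟨fun n z hz => ?_,
      hCL3 K' hK', fun b' f' c' S' hr' => ?_⟩⟩
    · rw [hq3]
      refine cb.bun hc2.2.1.1 ?_
      have h1 : Cb (prod om (prod om om : M)) := cb.prod cb.om (cb.prod cb.om cb.om)
      refine cb.sub (cb.img (fun z : M => opair K z) inferInstance h1) fun z hz => ?_
      obtain ⟨n, y, hn, hy, rfl⟩ := tre_N_shape hz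
      exact (mem_img' inferInstance).2 ⟨_, mem_prod.2 ⟨hn, hy⟩, rfl⟩
    · rw [hq3, mem_bun] at hz
      rcases hz with hz | hz
      · exact hc2.2.1.2 z hz
      · obtain ⟨n, y, hn, hy, rfl⟩ := tre_N_shape hz
        obtain ⟨j, v, hj, hv, rfl⟩ := mem_prod'.1 hy
        exact ⟨K, n, _, Or.inr hK, wf.om n hn, zv.pos hj hv, rfl⟩
    · rw [hEemp] at hx
      exact hc2.2.2.1.1 b x hx
    · rw [hEemp] at hx hx'
      exact hc2.2.2.1.2.1 b x x' hx hx'
    · obtain ⟨x, hx⟩ := hc2.2.2.1.2.2.1 b hb'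
      exact ⟨x, hsub _ hx⟩
    · exact hc2.2.2.1.2.2.2 b b' f c S f' c' S' hbb ((hEemp _ _).1 h1) ((hEemp _ _).1 h2)
    · by_cases hne : K' = K
      · subst hne
        rcases (hE _ _ _).1 hz with h1 | ⟨_, h1, h2⟩
        · exact hom n z h1
        · refine ⟨h1, ?_⟩
          unfold trc at h2
          exact ((mem_sep' inferInstance).1 h2).1
      · rw [hEne K' n z hne] at hz
        exact (hc2.2.2.2 K' hK').1 n z hz
    · have hr2 : Rw q2 b' f' c' S' := (hEemp _ _).1 hr'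
      have hTM : Tr q2 K' b' → Tr q3 K' b' := fun hT =>
        htmo M w Z I b1 q2 q3 K' b' hbs hI hc2 hK' hsub
          (fun n j hn hj => (hCL3 K' hK' n hn).2.1 j hj) hT
      rcases (hc2.2.2.2 K' hK').2.2 b' f' c' S' hr2 with hT | hG'
      · exact Or.inl (hTM hT)
      · by_cases hne : K' = K
        · subst hne
          by_cases hbb : b' = b
          · subst hbb
            exact Or.inl hTr3
          · refine Or.inr fun n hn => ?_
            rw [hcol3 n hn]
            have hf' := (cv.rowl hc2 hr2).1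
            refine (htr n hn).2.2.2.2.2 f' hf' ?_ (hG' n hn)
            have hb1 := cv.rowb hc2 hrw2
            have hb2 := cv.rowb hc2 hr2
            have ho := (cv.ht hc2).2
            rcases (ho.mem hb1).tri (ho.mem hb2) with h1 | h1 | h1
            · exact (hc2.2.2.1.2.2.2 _ _ _ _ _ _ _ _ h1 hr2 hrw2).1
            · exact absurd h1.symm hbb
            · obtain ⟨m, hm, h2⟩ := (hc2.2.2.1.2.2.2 _ _ _ _ _ _ _ _ h1 hrw2 hr2).1
              exact ⟨m, hm, fun j hj hmj h3 => h2 j hj hmj h3.symm⟩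
        · refine Or.inr fun n hn => ?_
          rw [hcolne K' n hne]
          exact hG' n hn
  refine ⟨q3, mem_PQ.2 ⟨b1, hc3⟩, hpq2.trans hsub, fun K' n j v hx => ?_, hTr3⟩
  obtain ⟨K1, n1, j1, hK1, hn1, hj1, h1⟩ := he.2 _ hx
  simp only [opair_inj] at h1
  obtain ⟨rfl, rfl, rfl⟩ := h1
  rw [← hsm2 K' n j v hx]
  by_cases hne : K' = K
  · subst hne
    have hjL : E j L := hL' _ _ _ hx
    rw [hEx3 n j v hn1, (htr n hn1).2.2.1 j v hj1
      (((Ord_nat hL).sub_of_mem hjL).trans (hln n hn1).2.2)]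
    exact cv.colx hc2 hK
  · exact hEne _ _ _ hne

end SW.DV
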