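import Pool.Agent.H35.DV.Stmts

/-!
Module ZVX: facts about `Z`.
-/

set_option linter.unusedVariables false
set_option synthInstance.maxSize 100000

namespace SW.DV

theorem dv_zvx (hzf : ZFXStmt) (hcbt : CBTStmt) : ZVXStmt := by
  intro M _ _ w Z hb
  have zf := hzf M w Z hb
  have cb := hcbt M
  have hpos : ∀ {j v : M}, E j om → E v om → E (opair j v) Z :=
    fun hj hv => zf.opZ (zf.omZ _ hj) (zf.omZ _ hv)
  have hoo : Cb (prod om om : M) := cb.prod cb.om cb.om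
  have hprod : ∀ {s : M}, Sub s (prod om om) → Cb s ∧ E s Z := by
    intro s hs
    have h1 : Cb s := cb.sub hoo hs
    refine ⟨h1, hb.sc s (fun z hz => ?_) h1⟩
    obtain ⟨j, v, hj, hv, rfl⟩ := mem_prod'.1 (hs z hz)
    exact hpos hj hv
  have hcof : ∀ {f : M}, Fo f → Cb f ∧ E f Z := by
    intro f hf
    refine hprod fun z hz => ?_
    obtain ⟨n, m, hn, hm, rfl⟩ := hf.1 z hz
    exact mem_prod.2 ⟨hn, hm⟩
  have hcol : ∀ {s : M}, Wf s → Cb s ∧ E s Z := by
    intro s hs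
    refine hprod fun z hz => ?_
    obtain ⟨j, v, hj, hv, rfl⟩ := hs z hz
    exact mem_prod.2 ⟨hj, Ord_om.trans (suc_mem_om hj) hv⟩
  refine ⟨?_, hcof, hcol, hpos⟩
  intro f c S hf hc hS hs
  refine zf.opZ (hcof hf).2 (zf.opZ (hcof hc).2 (hb.sc S (fun s h => ?_) hS))
  exact (hcol (hs s h).1).2

end SW.DV
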